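import Mathlib

/-!
The colouring of triples of 0-1 strings.
-/

namespace Pool.Agent.LinRam54

open Finset

/-- The red triples of strings: the triple splits at level `i` into a pair with digit `0` and a
single string with digit `1`, the pair splits at level `j`, and `i j` are adjacent. -/
def RedS {m : ℕ} (Adj : Fin m → Fin m → Prop) (e : Finset (Fin m → Bool)) : Prop :=
  ∃ z ∈ e, ∃ i j, Adj i j ∧ (∀ x ∈ e, ∀ t < i, x t = z t) ∧ z i = true ∧
    (∀ x ∈ e, x ≠ z → x i = false) ∧
    (∀ x ∈ e, ∀ y ∈ e, x ≠ z → y ≠ z → ∀ t < j, x t = y t) ∧
    (∃ x ∈ e, ∃ y ∈ e, x ≠ z ∧ y ≠ z ∧ x j ≠ y j)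

open Classical in
/-- a blue set of strings is not larger than the number of independent sets -/
theorem blue_card {m : ℕ} (Adj : Fin m → Fin m → Prop) (hirr : ∀ i, ¬ Adj i i)
    (hsymm : ∀ i j, Adj i j → Adj j i)
    (S : Finset (Fin m → Bool)) (hS : ∀ e ⊆ S, e.card = 3 → ¬ RedS Adj e) :
    S.card ≤ ((univ : Finset (Finset (Fin m))).filter (fun I => ∀ i ∈ I, ∀ j ∈ I, ¬ Adj i j)).card := by
  apply Finset.card_le_card_of_injOn
    (fun x => univ.filter (fun i => x i = false ∧ ∃ z ∈ S, z i = true ∧ ∀ t < i, z t = x t))
  · intro x hx
    rw [Finset.mem_coe] at hx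
    rw [Finset.mem_coe, Finset.mem_filter]
    refine ⟨Finset.mem_univ _, ?_⟩
    -- no two adjacent levels
    have key : ∀ i j, i < j → x i = false → (∃ z ∈ S, z i = true ∧ ∀ t < i, z t = x t) →
        x j = false → (∃ z ∈ S, z j = true ∧ ∀ t < j, z t = x t) → ¬ Adj i j := by
      rintro i j hij hxi ⟨z, hz, hzi, hzt⟩ hxj ⟨y, hy, hyj, hyt⟩ hadj
      have hyi : y i = false := by rw [hyt i hij]; exact hxi
      have hxz : x ≠ z := by
        intro h
        rw [h, hzi] at hxi
        exact absurd hxi (by simp)
      have hxy : x ≠ y := by
        intro h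
        rw [h, hyj] at hxj
        exact absurd hxj (by simp)
      have hyz : y ≠ z := by
        intro h
        rw [h, hzi] at hyi
        exact absurd hyi (by simp)
      refine hS {x, y, z} ?_ ?_ ?_
      · intro w hw
        simp only [Finset.mem_insert, Finset.mem_singleton] at hw
        rcases hw with rfl | rfl | rfl <;> assumption
      · rw [Finset.card_eq_three]
        exact ⟨x, y, z, hxy, hxz, hyz, rfl⟩
      · refine ⟨z, by simp, i, j, hadj, ?_, hzi, ?_, ?_, ?_⟩
        · intro w hw t ht
          simp only [Finset.mem_insert, Finset.mem_singleton] at hw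
          rcases hw with rfl | rfl | rfl
          · exact (hzt t ht).symm
          · rw [hyt t (ht.trans hij), hzt t ht]
          · rfl
        · intro w hw hwz
          simp only [Finset.mem_insert, Finset.mem_singleton] at hw
          rcases hw with rfl | rfl | rfl
          · exact hxi
          · exact hyi
          · exact absurd rfl hwz
        · intro w hw w' hw' hwz hwz' t ht
          simp only [Finset.mem_insert, Finset.mem_singleton] at hw hw'
          have e1 : w t = x t := by
            rcases hw with rfl | rfl | rfl
            · rfl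
            · exact hyt t ht
            · exact absurd rfl hwz
          have e2 : w' t = x t := by
            rcases hw' with rfl | rfl | rfl
            · rfl
            · exact hyt t ht
            · exact absurd rfl hwz'
          rw [e1, e2]
        · refine ⟨x, by simp, y, by simp, hxz, hyz, ?_⟩
          rw [hxj, hyj]
          simp
    intro i hi j hj hadj
    rw [Finset.mem_filter] at hi hj
    rcases lt_trichotomy i j with h | h | h
    · exact key i j h hi.2.1 hi.2.2 hj.2.1 hj.2.2 hadj
    · rw [h] at hadj
      exact hirr j hadj
    · exact key j i h hj.2.1 hj.2.2 hi.2.1 hi.2.2 (hsymm _ _ hadj)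
  · intro x hx y hy hxy
    rw [Finset.mem_coe] at hx hy
    dsimp only at hxy
    by_contra hne
    -- first difference
    have hex : ∃ i, x i ≠ y i := by
      by_contra h
      push Not at h
      exact hne (funext h)
    have hnonempty : (univ.filter (fun i => x i ≠ y i)).Nonempty := by
      obtain ⟨i, hi⟩ := hex
      exact ⟨i, Finset.mem_filter.2 ⟨Finset.mem_univ _, hi⟩⟩
    set i := (univ.filter (fun i => x i ≠ y i)).min' hnonempty with hi
    have hi1 : x i ≠ y i := (Finset.mem_filter.1 (Finset.min'_mem _ hnonempty)).2
    have hi2 : ∀ t < i, x t = y t := by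
      intro t ht
      by_contra h
      have := Finset.min'_le (univ.filter (fun i => x i ≠ y i)) t
        (Finset.mem_filter.2 ⟨Finset.mem_univ _, h⟩)
      exact absurd ht (not_lt.2 this)
    have main : ∀ u v : Fin m → Bool, u ∈ S → v ∈ S → u i = false → v i = true →
        (∀ t < i, v t = u t) →
        univ.filter (fun i => u i = false ∧ ∃ z ∈ S, z i = true ∧ ∀ t < i, z t = u t) ≠
        univ.filter (fun i => v i = false ∧ ∃ z ∈ S, z i = true ∧ ∀ t < i, z t = v t) := by
      intro u v _ hv hui hvi huv h
      have h1 : i ∈ univ.filter (fun i => u i = false ∧ ∃ z ∈ S, z i = true ∧ ∀ t < i, z t = u t) :=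
        Finset.mem_filter.2 ⟨Finset.mem_univ _, hui, v, hv, hvi, huv⟩
      rw [h, Finset.mem_filter] at h1
      rw [hvi] at h1
      exact absurd h1.2.1 (by simp)
    cases hxi : x i with
    | false =>
      have hyi : y i = true := by
        rw [hxi] at hi1
        cases hyi : y i with
        | false => rw [hyi] at hi1; exact absurd rfl hi1
        | true => rfl
      exact main x y hx hy hxi hyi (fun t ht => (hi2 t ht).symm) hxy
    | true =>
      have hyi : y i = false := by
        rw [hxi] at hi1
        cases hyi : y i with
        | false => rfl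
        | true => rw [hyi] at hi1; exact absurd rfl hi1
      exact main y x hy hx hyi hxi hi2 hxy.symm

/-- the analysis of a red triple all of whose strings leave a fixed string `b` upwards -/
theorem red_triple {m : ℕ} (Adj : Fin m → Fin m → Prop) (b : Fin m → Bool)
    (x y z : Fin m → Bool) (hxy : x ≠ y) (hxz : x ≠ z) (hyz : y ≠ z)
    (hred : RedS Adj {x, y, z}) (iy iz : Fin m)
    (hy1 : ∀ t < iy, y t = b t) (hy2 : y iy = true) (hyb : b iy = false)
    (hz1 : ∀ t < iz, z t = b t) (hz2 : z iz = true) (hzb : b iz = false)
    (hx : ∀ t, t ≤ iy ∨ t ≤ iz → x t = b t) :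
    iy ≠ iz ∧ (Adj iy iz ∨ Adj iz iy) := by
  -- symmetric core: `iy ≤ iz`
  obtain ⟨w, hw, i, j, hadj, h1, hwi, h2, h3, ⟨p, hp, q, hq, hpw, hqw, hpq⟩⟩ := hred
  -- the level i is min iy iz
  have hmem : ∀ P : (Fin m → Bool) → Prop, P x → P y → P z → ∀ v ∈ ({x, y, z} : Finset (Fin m → Bool)), P v := by
    intro P px py pz v hv
    simp only [Finset.mem_insert, Finset.mem_singleton] at hv
    rcases hv with rfl | rfl | rfl <;> assumption
  have hall : ∀ t < i, x t = y t ∧ x t = z t := by
    intro t ht
    have a := h1 x (by simp) t ht
    have b' := h1 y (by simp) t ht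
    have c := h1 z (by simp) t ht
    exact ⟨a.trans b'.symm, a.trans c.symm⟩
  have hiy : i ≤ iy := by
    by_contra h
    push Not at h
    have := (hall iy h).1
    rw [hx iy (Or.inl le_rfl), hyb, hy2] at this
    exact absurd this (by simp)
  have hiz : i ≤ iz := by
    by_contra h
    push Not at h
    have := (hall iz h).2
    rw [hx iz (Or.inr le_rfl), hzb, hz2] at this
    exact absurd this (by simp)
  -- w is y or z and x is in the pair
  have hxi : x i = b i := hx i (Or.inl hiy)
  have hi_cases : i = iy ∨ i = iz := by
    by_contra h
    push Not at h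
    have hy' : i < iy := lt_of_le_of_ne hiy h.1
    have hz' : i < iz := lt_of_le_of_ne hiz h.2
    -- all have digit b i
    have hb1 : b i = true := by
      have : ∀ v ∈ ({x, y, z} : Finset (Fin m → Bool)), v i = b i :=
        hmem (fun v => v i = b i) hxi (hy1 i hy') (hz1 i hz')
      rw [← this w hw]
      exact hwi
    -- but x or y differs from w
    rcases eq_or_ne x w with hxw | hxw
    · have hyw : y ≠ w := fun h => hxy (hxw.trans h.symm)
      have := h2 y (by simp) hyw
      rw [hy1 i hy', hb1] at this
      exact absurd this (by simp)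
    · have := h2 x (by simp) hxw
      rw [hxi, hb1] at this
      exact absurd this (by simp)
  have hbi : b i = false := by
    rcases hi_cases with h | h
    · rw [h]; exact hyb
    · rw [h]; exact hzb
  have hxw : x ≠ w := by
    intro h
    rw [← h, hxi, hbi] at hwi
    exact absurd hwi (by simp)
  have hwyz : w = y ∨ w = z := by
    simp only [Finset.mem_insert, Finset.mem_singleton] at hw
    rcases hw with h | h | h
    · exact absurd h.symm hxw
    · exact Or.inl h
    · exact Or.inr h
  -- the pair is x and the other one
  rcases hwyz with hwy | hwz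
  · -- w = y, pair x, z
    have hzw : z ≠ w := by rw [hwy]; exact hyz.symm
    have hzi : z i = false := h2 z (by simp) hzw
    have h_iy : i = iy := by
      rcases hi_cases with h | h
      · exact h
      · rw [h, hz2] at hzi
        exact absurd hzi (by simp)
    have h_ne : iy ≠ iz := by
      intro h
      rw [h_iy, h, hz2] at hzi
      exact absurd hzi (by simp)
    refine ⟨h_ne, Or.inl ?_⟩
    -- j = iz
    have hj : j = iz := by
      rcases lt_trichotomy j iz with h | h | h
      · exfalso
        -- p and q both agree with b at j
        have hx_j : x j = b j := hx j (Or.inr h.le)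
        have hz_j : z j = b j := hz1 j h
        have hv : ∀ v ∈ ({x, y, z} : Finset (Fin m → Bool)), v ≠ w → v j = b j := by
          intro v hv hvw
          simp only [Finset.mem_insert, Finset.mem_singleton] at hv
          rcases hv with rfl | rfl | rfl
          · exact hx_j
          · exact absurd hwy.symm hvw
          · exact hz_j
        exact hpq ((hv p hp hpw).trans (hv q hq hqw).symm)
      · exact h
      · exfalso
        have := h3 x (by simp) z (by simp) hxw hzw iz h
        rw [hx iz (Or.inr le_rfl), hzb, hz2] at this
        exact absurd this (by simp)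
    rw [← h_iy, ← hj]
    exact hadj
  · have hyw : y ≠ w := by rw [hwz]; exact hyz
    have hyi : y i = false := h2 y (by simp) hyw
    have h_iz : i = iz := by
      rcases hi_cases with h | h
      · rw [h, hy2] at hyi
        exact absurd hyi (by simp)
      · exact h
    have h_ne : iy ≠ iz := by
      intro h
      rw [h_iz, ← h, hy2] at hyi
      exact absurd hyi (by simp)
    refine ⟨h_ne, Or.inr ?_⟩
    have hj : j = iy := by
      rcases lt_trichotomy j iy with h | h | h
      · exfalso
        have hx_j : x j = b j := hx j (Or.inl h.le)
        have hy_j : y j = b j := hy1 j h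
        have hv : ∀ v ∈ ({x, y, z} : Finset (Fin m → Bool)), v ≠ w → v j = b j := by
          intro v hv hvw
          simp only [Finset.mem_insert, Finset.mem_singleton] at hv
          rcases hv with rfl | rfl | rfl
          · exact hx_j
          · exact hy_j
          · exact absurd hwz.symm hvw
        exact hpq ((hv p hp hpw).trans (hv q hq hqw).symm)
      · exact h
      · exfalso
        have := h3 x (by simp) y (by simp) hxw hyw iy h
        rw [hx iy (Or.inl le_rfl), hyb, hy2] at this
        exact absurd this (by simp)
    rw [← h_iz, ← hj]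
    exact hadj

end Pool.Agent.LinRam54
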