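import Pool.Agent.Lib_helper54.LinRam.Good

/-!
A good 3-graph has no level embedding into a sparse graph.
-/

namespace Pool.Agent.LinRam54

open Finset

open Classical in
theorem layer (S : Finset ℕ) (w : ℕ → ℕ) (Adj : ℕ → ℕ → Prop) (E ρ : ℕ)
    (hsp : ∀ S' ⊆ S, ((S' ×ˢ S').filter (fun q => Adj q.1 q.2)).card ≤ 2 * E * S'.card)
    (hw : ∀ i ∈ S, w i ≤ ρ) :
    ∑ q ∈ (S ×ˢ S).filter (fun q => Adj q.1 q.2), w q.1 * w q.2 ≤ 2 * E * ρ * ∑ i ∈ S, w i := by
  have h1 : ∀ q ∈ (S ×ˢ S).filter (fun q => Adj q.1 q.2), w q.1 * w q.2 ≤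
      ρ * ∑ s ∈ range ρ, (if s < w q.1 ∧ s < w q.2 then 1 else 0) := by
    intro q hq
    rw [Finset.mem_filter, Finset.mem_product] at hq
    have ha := hw q.1 hq.1.1
    have hb := hw q.2 hq.1.2
    have h2 : ∑ s ∈ range ρ, (if s < w q.1 ∧ s < w q.2 then 1 else 0) = min (w q.1) (w q.2) := by
      rw [← Finset.sum_filter, Finset.sum_const, smul_eq_mul, mul_one]
      have : (range ρ).filter (fun s => s < w q.1 ∧ s < w q.2) = range (min (w q.1) (w q.2)) := by
        ext s
        simp only [Finset.mem_filter, Finset.mem_range, lt_min_iff]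
        constructor
        · rintro ⟨_, h⟩
          exact h
        · intro h
          exact ⟨by omega, h⟩
      rw [this, Finset.card_range]
    rw [h2]
    rcases le_total (w q.1) (w q.2) with h | h
    · rw [min_eq_left h, mul_comm]
      exact Nat.mul_le_mul_right _ hb
    · rw [min_eq_right h]
      exact Nat.mul_le_mul_right _ ha
  calc ∑ q ∈ (S ×ˢ S).filter (fun q => Adj q.1 q.2), w q.1 * w q.2
      ≤ ∑ q ∈ (S ×ˢ S).filter (fun q => Adj q.1 q.2),
          ρ * ∑ s ∈ range ρ, (if s < w q.1 ∧ s < w q.2 then 1 else 0) := Finset.sum_le_sum h1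
    _ = ρ * ∑ s ∈ range ρ, ∑ q ∈ (S ×ˢ S).filter (fun q => Adj q.1 q.2),
          (if s < w q.1 ∧ s < w q.2 then 1 else 0) := by
        rw [← Finset.mul_sum, Finset.sum_comm]
    _ ≤ ρ * ∑ s ∈ range ρ, 2 * E * (S.filter (fun i => s < w i)).card := by
        apply Nat.mul_le_mul_left
        apply Finset.sum_le_sum
        intro s _
        rw [← Finset.sum_filter, Finset.sum_const, smul_eq_mul, mul_one]
        refine le_trans (Finset.card_le_card ?_) (hsp (S.filter (fun i => s < w i)) (Finset.filter_subset _ _))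
        intro q hq
        rw [Finset.mem_filter, Finset.mem_filter, Finset.mem_product] at hq
        rw [Finset.mem_filter, Finset.mem_product, Finset.mem_filter, Finset.mem_filter]
        exact ⟨⟨⟨hq.1.1.1, hq.2.1⟩, ⟨hq.1.1.2, hq.2.2⟩⟩, hq.1.2⟩
    _ = 2 * E * ρ * ∑ s ∈ range ρ, (S.filter (fun i => s < w i)).card := by
        rw [← Finset.mul_sum]
        ring
    _ = 2 * E * ρ * ∑ i ∈ S, w i := by
        congr 1
        have : ∀ s ∈ range ρ, (S.filter (fun i => s < w i)).card = ∑ i ∈ S, if s < w i then 1 else 0 := by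
          intro s _
          rw [← Finset.sum_filter, Finset.sum_const, smul_eq_mul, mul_one]
        rw [Finset.sum_congr rfl this, Finset.sum_comm]
        apply Finset.sum_congr rfl
        intro i hi
        rw [← Finset.sum_filter, Finset.sum_const, smul_eq_mul, mul_one]
        have : (range ρ).filter (fun s => s < w i) = range (w i) := by
          ext s
          simp only [Finset.mem_filter, Finset.mem_range]
          have := hw i hi
          omega
        rw [this, Finset.card_range]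

open Classical in
/-- pairs of vertices of `P` on adjacent levels, when every level has at most `ρ` vertices of `P` -/
theorem pairs_small {k : ℕ} (P : Finset (Fin k)) (l : Fin k → ℕ) (Adj : ℕ → ℕ → Prop) (E ρ : ℕ)
    (hsp : ∀ S : Finset ℕ, S.card ≤ k → ((S ×ˢ S).filter (fun q => Adj q.1 q.2)).card ≤ 2 * E * S.card)
    (hw : ∀ y ∈ P, (P.filter (fun z => l z = l y)).card ≤ ρ) :
    ((P ×ˢ P).filter (fun q => Adj (l q.1) (l q.2))).card ≤ 2 * E * ρ * P.card := by
  set S : Finset ℕ := P.image l with hS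
  set w : ℕ → ℕ := fun i => (P.filter (fun z => l z = i)).card with hwdef
  have hSk : S.card ≤ k := by
    refine Finset.card_image_le.trans ?_
    refine (Finset.card_le_univ P).trans ?_
    simp
  have h1 := layer S w Adj E ρ (fun S' hS' => hsp S' ((Finset.card_le_card hS').trans hSk)) (by
    intro i hi
    rw [hS, Finset.mem_image] at hi
    obtain ⟨y, hy, rfl⟩ := hi
    exact hw y hy)
  have h2 : ∑ i ∈ S, w i = P.card := by
    rw [Finset.card_eq_sum_card_fiberwise (f := l) (t := S)]
    intro x hx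
    exact Finset.mem_image_of_mem l hx
  rw [h2] at h1
  refine le_trans ?_ h1
  have h3 : ((P ×ˢ P).filter (fun q => Adj (l q.1) (l q.2))).card =
      ∑ b ∈ (S ×ˢ S).filter (fun q => Adj q.1 q.2),
        (((P ×ˢ P).filter (fun q => Adj (l q.1) (l q.2))).filter (fun q => (l q.1, l q.2) = b)).card := by
    apply Finset.card_eq_sum_card_fiberwise
    intro q hq
    rw [Finset.mem_coe, Finset.mem_filter, Finset.mem_product] at hq
    rw [Finset.mem_coe, Finset.mem_filter, Finset.mem_product]
    exact ⟨⟨Finset.mem_image_of_mem l hq.1.1, Finset.mem_image_of_mem l hq.1.2⟩, hq.2⟩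
  rw [h3]
  apply Finset.sum_le_sum
  intro b _
  have h4 : ((P ×ˢ P).filter (fun q => Adj (l q.1) (l q.2))).filter (fun q => (l q.1, l q.2) = b) ⊆
      (P.filter (fun z => l z = b.1)) ×ˢ (P.filter (fun z => l z = b.2)) := by
    intro q hq
    rw [Finset.mem_filter, Finset.mem_filter, Finset.mem_product] at hq
    rw [Finset.mem_product, Finset.mem_filter, Finset.mem_filter]
    obtain ⟨⟨⟨h5, h6⟩, _⟩, h7⟩ := hq
    rw [← h7]
    exact ⟨⟨h5, rfl⟩, ⟨h6, rfl⟩⟩
  refine (Finset.card_le_card h4).trans ?_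
  rw [Finset.card_product]

open Classical in
/-- the vertices on crowded levels are few -/
theorem big_small {k : ℕ} (P : Finset (Fin k)) (l : Fin k → ℕ) (ρ : ℕ) :
    (P.filter (fun y => ρ < (P.filter (fun z => l z = l y)).card)).card * ρ ≤
      2 * ((P ×ˢ P).filter (fun q => q.1 < q.2 ∧ l q.1 = l q.2)).card := by
  set B := P.filter (fun y => ρ < (P.filter (fun z => l z = l y)).card) with hB
  -- ordered pairs
  have h1 : B.card * ρ ≤ ((P ×ˢ P).filter (fun q => q.1 ≠ q.2 ∧ l q.1 = l q.2)).card := by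
    have h2 : ((P ×ˢ P).filter (fun q => q.1 ≠ q.2 ∧ l q.1 = l q.2)).card =
        ∑ y ∈ P, (((P ×ˢ P).filter (fun q => q.1 ≠ q.2 ∧ l q.1 = l q.2)).filter (fun q => q.1 = y)).card := by
      apply Finset.card_eq_sum_card_fiberwise
      intro q hq
      rw [Finset.mem_coe, Finset.mem_filter, Finset.mem_product] at hq
      exact hq.1.1
    rw [h2]
    have h3 : ∑ y ∈ B, ρ ≤ ∑ y ∈ B,
        (((P ×ˢ P).filter (fun q => q.1 ≠ q.2 ∧ l q.1 = l q.2)).filter (fun q => q.1 = y)).card := by
      apply Finset.sum_le_sum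
      intro y hy
      rw [hB, Finset.mem_filter] at hy
      have h4 : ρ ≤ ((P.filter (fun z => l z = l y)).erase y).card := by
        have hm : y ∈ P.filter (fun z => l z = l y) := Finset.mem_filter.2 ⟨hy.1, rfl⟩
        rw [Finset.card_erase_of_mem hm]
        omega
      refine h4.trans ?_
      apply Finset.card_le_card_of_injOn (fun z => (y, z))
      · intro z hz
        rw [Finset.mem_coe, Finset.mem_erase, Finset.mem_filter] at hz
        rw [Finset.mem_coe, Finset.mem_filter, Finset.mem_filter, Finset.mem_product]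
        exact ⟨⟨⟨hy.1, hz.2.1⟩, hz.1.symm, hz.2.2.symm⟩, rfl⟩
      · intro z _ z' _ he
        exact (Prod.mk.injEq _ _ _ _ ▸ he).2
    rw [Finset.sum_const, smul_eq_mul] at h3
    refine h3.trans ?_
    apply Finset.sum_le_sum_of_subset
    exact Finset.filter_subset _ _
  refine h1.trans ?_
  have h5 : (P ×ˢ P).filter (fun q => q.1 ≠ q.2 ∧ l q.1 = l q.2) ⊆
      ((P ×ˢ P).filter (fun q => q.1 < q.2 ∧ l q.1 = l q.2)) ∪
        ((P ×ˢ P).filter (fun q => q.1 < q.2 ∧ l q.1 = l q.2)).image Prod.swap := by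
    intro q hq
    rw [Finset.mem_filter, Finset.mem_product] at hq
    rw [Finset.mem_union]
    rcases lt_or_gt_of_ne hq.2.1 with h | h
    · left
      rw [Finset.mem_filter, Finset.mem_product]
      exact ⟨hq.1, h, hq.2.2⟩
    · right
      rw [Finset.mem_image]
      refine ⟨(q.2, q.1), ?_, rfl⟩
      rw [Finset.mem_filter, Finset.mem_product]
      exact ⟨⟨hq.1.2, hq.1.1⟩, h, hq.2.2.symm⟩
  refine (Finset.card_le_card h5).trans ?_
  refine (Finset.card_union_le _ _).trans ?_
  have h6 := Finset.card_image_le (s := (P ×ˢ P).filter (fun q => q.1 < q.2 ∧ l q.1 = l q.2)) (f := Prod.swap)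
  omega

/-- twice the number of increasing pairs of `R` -/
theorem inc_pairs {k : ℕ} (R : Finset (Fin k)) :
    R.card * R.card - R.card ≤ 2 * ((R ×ˢ R).filter (fun q => q.1 < q.2)).card := by
  rw [← Finset.offDiag_card]
  have h5 : R.offDiag ⊆ ((R ×ˢ R).filter (fun q => q.1 < q.2)) ∪
        ((R ×ˢ R).filter (fun q => q.1 < q.2)).image Prod.swap := by
    intro q hq
    rw [Finset.mem_offDiag] at hq
    rw [Finset.mem_union]
    rcases lt_or_gt_of_ne hq.2.2 with h | h
    · left
      rw [Finset.mem_filter, Finset.mem_product]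
      exact ⟨⟨hq.1, hq.2.1⟩, h⟩
    · right
      rw [Finset.mem_image]
      refine ⟨(q.2, q.1), ?_, rfl⟩
      rw [Finset.mem_filter, Finset.mem_product]
      exact ⟨⟨hq.2.1, hq.1⟩, h⟩
  refine (Finset.card_le_card h5).trans ?_
  refine (Finset.card_union_le _ _).trans ?_
  have h6 := Finset.card_image_le (s := (R ×ˢ R).filter (fun q => q.1 < q.2)) (f := Prod.swap)
  omega

theorem numerics (k L E a B Y X : ℕ) (hk : 0 < k) (hE : 1 ≤ E) (hL1 : 1 ≤ L)
    (hbig : 2 ^ 60 * (E * L) ≤ k) (hkL : 2 ^ 60 * L ≤ k) (hk60 : 2 ^ 60 ≤ k)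
    (hstep1 : k / 2 ^ 15 ≤ a) (htot : a * a - a ≤ 2 * X + 2 * Y)
    (hYb : Y ≤ 2 * E * (2 ^ 32 * L) * a + 2 * (B * a))
    (hX : X ≤ 192 * (L * k + k + 2 * L * (2 * E * k + 1) + 2))
    (hBρ : B * (2 ^ 32 * L) ≤ 384 * (L * k + k + 2)) : False := by
  have hak : k < 2 ^ 15 * (a + 1) := by
    have := Nat.lt_mul_div_succ k (show 0 < 2 ^ 15 by norm_num)
    have h2 : k / 2 ^ 15 + 1 ≤ a + 1 := by omega
    exact lt_of_lt_of_le this (Nat.mul_le_mul_left _ h2)
  have r1 : (2 : ℝ) ^ 60 * (E * L) ≤ k := by exact_mod_cast hbig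
  have r2 : (2 : ℝ) ^ 60 * L ≤ k := by exact_mod_cast hkL
  have r3 : (2 : ℝ) ^ 60 ≤ k := by exact_mod_cast hk60
  have r4 : (k : ℝ) ≤ 2 ^ 15 * (a + 1) := by exact_mod_cast hak.le
  have rL : (1 : ℝ) ≤ L := by exact_mod_cast hL1
  have rE : (1 : ℝ) ≤ E := by exact_mod_cast hE
  have r5 : (a : ℝ) * a - a ≤ 2 * X + 2 * Y := by
    have h1 : a * a ≤ 2 * X + 2 * Y + a := by omega
    have h2 : (a : ℝ) * a ≤ 2 * X + 2 * Y + a := by exact_mod_cast h1
    linarith
  have r6 : (Y : ℝ) ≤ 2 * E * (2 ^ 32 * L) * a + 2 * (B * a) := by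
    exact_mod_cast hYb
  have r7 : (X : ℝ) ≤ 192 * (L * k + k + 2 * L * (2 * E * k + 1) + 2) := by
    exact_mod_cast hX
  have r8 : (B : ℝ) * (2 ^ 32 * L) ≤ 384 * (L * k + k + 2) := by
    exact_mod_cast hBρ
  have rk : (0 : ℝ) < k := by exact_mod_cast hk
  have ra : (2 : ℝ) ^ 44 ≤ a := by
    have : (2 : ℝ) ^ 60 ≤ 2 ^ 15 * (a + 1) := r3.trans r4
    nlinarith
  -- bound on B
  have r9 : (B : ℝ) ≤ k / 2 ^ 21 := by
    have h1 : (B : ℝ) * (2 ^ 32 * L) ≤ 384 * (3 * (L * k)) := by
      refine r8.trans ?_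
      have h2 : (k : ℝ) ≤ L * k := by nlinarith
      have h3 : (2 : ℝ) ≤ k := by nlinarith
      nlinarith
    have h4 : ((B : ℝ) * 2 ^ 32) * L ≤ (1152 * k) * L := by nlinarith
    have h5 : (B : ℝ) * 2 ^ 32 ≤ 1152 * k := le_of_mul_le_mul_right h4 (by linarith)
    rw [le_div_iff₀ (by positivity)]
    nlinarith
  have r10 : (B : ℝ) ≤ a / 2 ^ 5 := by
    have : (k : ℝ) / 2 ^ 21 ≤ a / 2 ^ 5 := by
      rw [div_le_div_iff₀ (by positivity) (by positivity)]
      nlinarith
    linarith
  have r11 : (2 : ℝ) * E * (2 ^ 32 * L) ≤ a / 2 ^ 5 := by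
    have h1 : (2 : ℝ) * E * (2 ^ 32 * L) = 2 ^ 33 * (E * L) := by ring
    rw [h1]
    have h2 : (E : ℝ) * L ≤ k / 2 ^ 60 := by
      rw [le_div_iff₀ (by positivity)]
      linarith
    have h3 : (2 : ℝ) ^ 33 * (E * L) ≤ 2 ^ 33 * (k / 2 ^ 60) :=
      mul_le_mul_of_nonneg_left h2 (by positivity)
    nlinarith
  have r12 : (192 : ℝ) * (L * k + k + 2 * L * (2 * E * k + 1) + 2) ≤ a * a / 2 ^ 5 := by
    have h1 : (L : ℝ) * k ≤ k / 2 ^ 60 * k := by
      apply mul_le_mul_of_nonneg_right _ rk.le
      rw [le_div_iff₀ (by positivity)]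
      linarith
    have h2 : (k : ℝ) ≤ k / 2 ^ 60 * k := by
      have : (1 : ℝ) ≤ k / 2 ^ 60 := by
        rw [le_div_iff₀ (by positivity)]
        linarith
      nlinarith
    have h3 : (L : ℝ) * E * k ≤ k / 2 ^ 60 * k := by
      apply mul_le_mul_of_nonneg_right _ rk.le
      rw [le_div_iff₀ (by positivity)]
      linarith
    have h4 : (L : ℝ) ≤ L * k := by nlinarith
    have h5 : (2 : ℝ) ≤ k := by nlinarith
    have h6 : (192 : ℝ) * (L * k + k + 2 * L * (2 * E * k + 1) + 2) ≤ 192 * 9 * (k / 2 ^ 60 * k) := by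
      have : (2 : ℝ) * L * (2 * E * k + 1) = 4 * (L * E * k) + 2 * L := by ring
      rw [this]
      nlinarith
    have h7 : (k : ℝ) ≤ 2 ^ 16 * a := by
      have : (1 : ℝ) ≤ a := by nlinarith
      nlinarith
    have h8 : (k : ℝ) / 2 ^ 60 * k ≤ (2 ^ 16 * a) / 2 ^ 60 * (2 ^ 16 * a) := by
      apply mul_le_mul _ h7 rk.le (by positivity)
      apply div_le_div_of_nonneg_right h7 (by positivity)
    have h9 : (2 ^ 16 * (a : ℝ)) / 2 ^ 60 * (2 ^ 16 * a) = a * a / 2 ^ 28 := by
      field_simp
    rw [h9] at h8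
    have h10 : (0 : ℝ) ≤ a * a := by positivity
    have h11 : (192 : ℝ) * 9 * (k / 2 ^ 60 * k) ≤ 192 * 9 * (a * a / 2 ^ 28) :=
      mul_le_mul_of_nonneg_left h8 (by norm_num)
    nlinarith
  have r13 : (Y : ℝ) ≤ a * a / 2 ^ 5 + 2 * (a / 2 ^ 5 * a) := by
    have h1 : (2 : ℝ) * E * (2 ^ 32 * L) * a ≤ a / 2 ^ 5 * a :=
      mul_le_mul_of_nonneg_right r11 (by positivity)
    have h2 : (B : ℝ) * a ≤ a / 2 ^ 5 * a := mul_le_mul_of_nonneg_right r10 (by positivity)
    have h3 : (a : ℝ) / 2 ^ 5 * a = a * a / 2 ^ 5 := by ring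
    rw [h3] at h1 h2 ⊢
    linarith
  have r14 : (a : ℝ) ≤ a * a / 2 ^ 5 := by
    rw [le_div_iff₀ (by positivity)]
    nlinarith
  have r15 : (0 : ℝ) < a * a := by nlinarith
  have r16 : (a : ℝ) / 2 ^ 5 * a = a * a / 2 ^ 5 := by ring
  rw [r16] at r13
  nlinarith


open Classical in
theorem core (k L E : ℕ) (hk : 0 < k) (hE : 1 ≤ E) (hL : k < 2 ^ L) (hbig : 2 ^ 60 * (E * L) ≤ k)
    (F : Finset (Finset (Fin k)))
    (hF : Good k (2 * E * k) (96 * k * (L * k + k + 2))
      (96 * k * (L * k + k + 2 * L * (2 * E * k + 1) + 2)) (k / 2 ^ 14) F)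
    (l : Fin k → ℕ) (m : ℕ) (x0 : Fin k) (hx0 : l x0 = m) (hlt : ∀ v, v ≠ x0 → l v < m)
    (Adj : ℕ → ℕ → Prop)
    (hsp : ∀ S : Finset ℕ, S.card ≤ k → ((S ×ˢ S).filter (fun q => Adj q.1 q.2)).card ≤ 2 * E * S.card)
    (hedge : ∀ e ∈ F, ∀ x ∈ e, ∀ y ∈ e, ∀ z ∈ e, x ≠ y → x ≠ z → y ≠ z → l y < l x → l z < l x →
      l y ≠ l z ∧ Adj (l y) (l z)) : False := by
  -- numerics
  have hL1 : 1 ≤ L := by
    by_contra h
    have : L = 0 := by omega
    subst this
    simp at hL
    omega
  have hEL : 1 ≤ E * L := Nat.one_le_iff_ne_zero.2 (by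
    intro h
    rcases Nat.mul_eq_zero.1 h with h | h <;> omega)
  have hk60 : 2 ^ 60 ≤ k := by
    calc 2 ^ 60 = 2 ^ 60 * 1 := by ring
      _ ≤ 2 ^ 60 * (E * L) := Nat.mul_le_mul_left _ hEL
      _ ≤ k := hbig
  have hkL : 2 ^ 60 * L ≤ k := by
    calc 2 ^ 60 * L ≤ 2 ^ 60 * (E * L) := Nat.mul_le_mul_left _ (Nat.le_mul_of_pos_left L (by omega))
      _ ≤ k := hbig
  -- representatives
  obtain ⟨g, hg⟩ : ∃ g : ℕ → Fin k, ∀ v, l (g (l v)) = l v := by
    refine ⟨fun i => if h : ∃ u, l u = i then h.choose else x0, ?_⟩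
    intro v
    have h : ∃ u, l u = l v := ⟨v, rfl⟩
    have h2 : (if h : ∃ u, l u = l v then h.choose else x0) = h.choose := dif_pos h
    show l (if h : ∃ u, l u = l v then h.choose else x0) = l v
    rw [h2]
    exact h.choose_spec
  set f : Fin k → Fin k := fun v => g (l v) with hf
  have hff : ∀ y z, f y = f z → l y = l z := by
    intro y z h
    rw [← hg y, ← hg z]
    exact congrArg l h
  set P : ℕ → Finset (Fin k) := fun θ => univ.filter (fun v => l v < θ) with hP
  set W : ℕ → Finset (Fin k) := fun θ => univ.filter (fun v => θ ≤ l v) with hW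
  have hPW : ∀ θ, (P θ).card + (W θ).card = k := by
    intro θ
    have h := Finset.card_filter_add_card_filter_not (s := (univ : Finset (Fin k))) (fun v => l v < θ)
    simp only [not_lt, Finset.card_univ, Fintype.card_fin] at h
    exact h
  have hnW : ∀ θ v, v ∉ W θ ↔ l v < θ := by
    intro θ v
    rw [hW]
    simp
  have hinW : ∀ θ v, v ∈ W θ ↔ θ ≤ l v := by
    intro θ v
    rw [hW]
    simp
  have hinP : ∀ θ v, v ∈ P θ ↔ l v < θ := by
    intro θ v
    rw [hP]
    simp
  -- F avoids the families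
  have havoid : ∀ θ (H : Finset (Fin k × Fin k)),
      (∀ y z, l y < θ → l z < θ → l y ≠ l z → Adj (l y) (l z) → (f y, f z) ∈ H) →
      ∀ e ∈ F, e ∉ tgt f (W θ) H := by
    intro θ H hH e he het
    unfold tgt at het
    rw [Finset.mem_filter] at het
    obtain ⟨_, x, hx, y, hy, z, hz, hyz, hexyz, hor⟩ := het
    rw [hinW] at hx
    rw [hnW] at hy hz
    have hxy : x ≠ y := by
      intro h
      rw [h] at hx
      omega
    have hxz : x ≠ z := by
      intro h
      rw [h] at hx
      omega
    have h := hedge e he x (by rw [hexyz]; simp) y (by rw [hexyz]; simp) z (by rw [hexyz]; simp)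
      hxy hxz hyz (by omega) (by omega)
    rcases hor with h1 | h1
    · exact h.1 (hff y z h1)
    · exact h1 (hH y z hy hz h.1 h.2)
  have hQA : ∀ θ, (tgt f (W θ) univ).card < 96 * k * (L * k + k + 2) := by
    intro θ
    by_contra h
    push Not at h
    obtain ⟨e, he, het⟩ := hF.hA f (W θ) h
    exact havoid θ univ (fun _ _ _ _ _ _ => Finset.mem_univ _) e he het
  -- threshold
  have hc0 : (P 0).card = 0 := by
    rw [Finset.card_eq_zero, hP]
    simp
  have hcm : k - 1 ≤ (P m).card := by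
    have h1 : (univ : Finset (Fin k)).erase x0 ⊆ P m := by
      intro v hv
      rw [hinP]
      exact hlt v (Finset.mem_erase.1 hv).1
    have h2 := Finset.card_le_card h1
    rw [Finset.card_erase_of_mem (Finset.mem_univ _), Finset.card_univ, Fintype.card_fin] at h2
    exact h2
  obtain ⟨τ, hτ1, hτ2⟩ : ∃ τ, 2 * (P τ).card ≤ k ∧ k < 2 * (P (τ + 1)).card := by
    by_contra hcon
    push Not at hcon
    have : ∀ θ, 2 * (P θ).card ≤ k := by
      intro θ
      induction θ with
      | zero => rw [hc0]; omega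
      | succ n ih => exact hcon n ih
    have := this m
    omega
  set R : Finset (Fin k) := univ.filter (fun v => l v = τ) with hR
  have hPR : (P (τ + 1)).card ≤ (P τ).card + R.card := by
    have : P (τ + 1) ⊆ P τ ∪ R := by
      intro v hv
      rw [hinP] at hv
      rw [Finset.mem_union, hinP, hR, Finset.mem_filter]
      rcases Nat.lt_succ_iff_lt_or_eq.1 hv with h | h
      · exact Or.inl h
      · exact Or.inr ⟨Finset.mem_univ _, h⟩
    exact (Finset.card_le_card this).trans (Finset.card_union_le _ _)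
  -- Step 1
  have hstep1 : k / 2 ^ 15 ≤ (P τ).card := by
    by_contra hsmall
    push Not at hsmall
    have hRk : k ≤ 3 * R.card := by omega
    -- pairs inside R
    have hprs : ((R ×ˢ R).filter (fun q => q.1 < q.2)).card ≤ (prs f (W (τ + 1)) univ).card := by
      apply Finset.card_le_card
      intro q hq
      rw [Finset.mem_filter, Finset.mem_product, hR, Finset.mem_filter, Finset.mem_filter] at hq
      unfold prs
      rw [Finset.mem_filter, hnW, hnW]
      refine ⟨Finset.mem_univ _, by omega, by omega, hq.2, Or.inl ?_⟩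
      rw [hf]
      show g (l q.1) = g (l q.2)
      rw [hq.1.1.2, hq.1.2.2]
    have h1 := inc_pairs R
    have h2 := card_tgt f (W (τ + 1)) univ
    have h3 := hQA (τ + 1)
    -- |W''| is small
    have hWs : (W (τ + 1)).card ≤ 5760 * L := by
      by_contra hcon
      push Not at hcon
      have h4 : k * k ≤ 10 * (R.card * R.card - R.card) := by
        have h5 : k * k ≤ 9 * (R.card * R.card) := by nlinarith
        have h6 : 10 * R.card ≤ R.card * R.card := by
          apply Nat.mul_le_mul_right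
          omega
        omega
      have h7 : k * k ≤ 20 * (prs f (W (τ + 1)) univ).card := by omega
      have h8 : 5760 * L * (k * k) ≤ 20 * ((W (τ + 1)).card * (prs f (W (τ + 1)) univ).card) := by
        calc 5760 * L * (k * k) ≤ (W (τ + 1)).card * (20 * (prs f (W (τ + 1)) univ).card) :=
              Nat.mul_le_mul hcon.le h7
          _ = 20 * ((W (τ + 1)).card * (prs f (W (τ + 1)) univ).card) := by ring
      have h9 : 5760 * L * (k * k) < 20 * (96 * k * (L * k + k + 2)) := by omega
      have h10 : 20 * (96 * k * (L * k + k + 2)) ≤ 5760 * L * (k * k) := by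
        have h11 : L * k + k + 2 ≤ 3 * (L * k) := by
          have h12 : k ≤ L * k := Nat.le_mul_of_pos_left k (by omega)
          omega
        calc 20 * (96 * k * (L * k + k + 2)) ≤ 20 * (96 * k * (3 * (L * k))) := by
              apply Nat.mul_le_mul_left
              exact Nat.mul_le_mul_left _ h11
          _ = 5760 * L * (k * k) := by ring
      omega
    -- use the degree property
    have hZ : ((univ : Finset (Fin k)) \ R).card ≤ k / 2 ^ 14 := by
      have h4 : (univ : Finset (Fin k)) \ R ⊆ P τ ∪ W (τ + 1) := by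
        intro v hv
        rw [Finset.mem_sdiff, hR, Finset.mem_filter] at hv
        rw [Finset.mem_union, hinP, hinW]
        have : l v ≠ τ := fun h => hv.2 ⟨Finset.mem_univ _, h⟩
        omega
      have h5 := (Finset.card_le_card h4).trans (Finset.card_union_le _ _)
      omega
    obtain ⟨e, he, het⟩ := hF.hD x0 _ hZ
    unfold tgtD at het
    rw [Finset.mem_filter] at het
    obtain ⟨_, hx0e, hall⟩ := het
    have hc2 : (e.erase x0).card = 2 := by
      rw [Finset.card_erase_of_mem hx0e, hF.card3 e he]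
    obtain ⟨y, z, hyz, hyze⟩ := Finset.card_eq_two.1 hc2
    have hy : y ∈ e.erase x0 := by rw [hyze]; simp
    have hz : z ∈ e.erase x0 := by rw [hyze]; simp
    rw [Finset.mem_erase] at hy hz
    have hyR : y ∈ R := by
      have := hall y hy.2 hy.1
      rw [Finset.mem_sdiff] at this
      by_contra h
      exact this ⟨Finset.mem_univ _, h⟩
    have hzR : z ∈ R := by
      have := hall z hz.2 hz.1
      rw [Finset.mem_sdiff] at this
      by_contra h
      exact this ⟨Finset.mem_univ _, h⟩
    rw [hR, Finset.mem_filter] at hyR hzR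
    have h := hedge e he x0 hx0e y hy.2 z hz.2 hy.1.symm hz.1.symm hyz
      (by rw [hx0]; exact hlt y hy.1) (by rw [hx0]; exact hlt z hz.1)
    exact h.1 (hyR.2.trans hzR.2.symm)
  -- Step 2
  set a := (P τ).card with ha
  have hWk : k ≤ 2 * (W τ).card := by
    have := hPW τ
    omega
  set H : Finset (Fin k × Fin k) :=
    ((((P τ).image l) ×ˢ ((P τ).image l)).filter (fun q => Adj q.1 q.2)).image (fun q => (g q.1, g q.2))
    with hH
  have hHc : H.card ≤ 2 * E * k := by
    refine Finset.card_image_le.trans ?_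
    have h1 : ((P τ).image l).card ≤ k := by
      refine Finset.card_image_le.trans ?_
      refine (Finset.card_le_univ _).trans ?_
      simp
    refine (hsp _ h1).trans ?_
    exact Nat.mul_le_mul_left _ h1
  have hXin : (prs f (W τ) univ).card ≤ 192 * (L * k + k + 2) := by
    by_contra hcon
    push Not at hcon
    have h1 := card_tgt f (W τ) univ
    have h2 := hQA τ
    have h3 : k * (192 * (L * k + k + 2)) ≤ 2 * ((W τ).card * (prs f (W τ) univ).card) := by
      calc k * (192 * (L * k + k + 2)) ≤ (2 * (W τ).card) * (prs f (W τ) univ).card :=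
            Nat.mul_le_mul hWk hcon.le
        _ = 2 * ((W τ).card * (prs f (W τ) univ).card) := by ring
    have h4 : k * (192 * (L * k + k + 2)) = 2 * (96 * k * (L * k + k + 2)) := by ring
    omega
  have hX : (prs f (W τ) H).card ≤ 192 * (L * k + k + 2 * L * (2 * E * k + 1) + 2) := by
    by_contra hcon
    push Not at hcon
    have h1 := card_tgt f (W τ) H
    have h2 : (tgt f (W τ) H).card < 96 * k * (L * k + k + 2 * L * (2 * E * k + 1) + 2) := by
      by_contra h
      push Not at h
      obtain ⟨e, he, het⟩ := hF.hB f (W τ) H hHc h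
      refine havoid τ H ?_ e he het
      intro y z hy hz _ hadj
      rw [hH, Finset.mem_image]
      refine ⟨(l y, l z), ?_, rfl⟩
      rw [Finset.mem_filter, Finset.mem_product]
      exact ⟨⟨Finset.mem_image_of_mem l ((hinP τ y).2 hy), Finset.mem_image_of_mem l ((hinP τ z).2 hz)⟩, hadj⟩
    have h3 : k * (192 * (L * k + k + 2 * L * (2 * E * k + 1) + 2)) ≤
        2 * ((W τ).card * (prs f (W τ) H).card) := by
      calc k * (192 * (L * k + k + 2 * L * (2 * E * k + 1) + 2))
          ≤ (2 * (W τ).card) * (prs f (W τ) H).card := Nat.mul_le_mul hWk hcon.le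
        _ = 2 * ((W τ).card * (prs f (W τ) H).card) := by ring
    have h4 : k * (192 * (L * k + k + 2 * L * (2 * E * k + 1) + 2)) =
        2 * (96 * k * (L * k + k + 2 * L * (2 * E * k + 1) + 2)) := by ring
    omega
  -- crowded levels
  set ρ := 2 ^ 32 * L with hρ
  set B := (P τ).filter (fun y => ρ < ((P τ).filter (fun z => l z = l y)).card) with hB
  have hBρ : B.card * ρ ≤ 384 * (L * k + k + 2) := by
    have h1 : B.card * ρ ≤
        2 * (((P τ) ×ˢ (P τ)).filter (fun q => q.1 < q.2 ∧ l q.1 = l q.2)).card := big_small (P τ) l ρ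
    have h2 : (((P τ) ×ˢ (P τ)).filter (fun q => q.1 < q.2 ∧ l q.1 = l q.2)).card ≤
        (prs f (W τ) univ).card := by
      apply Finset.card_le_card
      intro q hq
      rw [Finset.mem_filter, Finset.mem_product, hinP, hinP] at hq
      unfold prs
      rw [Finset.mem_filter, hnW, hnW]
      refine ⟨Finset.mem_univ _, hq.1.1, hq.1.2, hq.2.1, Or.inl ?_⟩
      rw [hf]
      show g (l q.1) = g (l q.2)
      rw [hq.2.2]
    omega
  -- adjacent pairs
  set Y := (((P τ) ×ˢ (P τ)).filter (fun q => Adj (l q.1) (l q.2))).card with hY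
  have hYb : Y ≤ 2 * E * ρ * a + 2 * (B.card * a) := by
    set P' := (P τ).filter (fun y => ¬ ρ < ((P τ).filter (fun z => l z = l y)).card) with hP'
    have h1 := pairs_small P' l Adj E ρ hsp (by
      intro y hy
      rw [hP', Finset.mem_filter, not_lt] at hy
      refine le_trans (Finset.card_le_card ?_) hy.2
      intro z hz
      rw [Finset.mem_filter] at hz ⊢
      exact ⟨(Finset.mem_filter.1 hz.1).1, hz.2⟩)
    have h2 : ((P τ) ×ˢ (P τ)).filter (fun q => Adj (l q.1) (l q.2)) ⊆
        ((P' ×ˢ P').filter (fun q => Adj (l q.1) (l q.2))) ∪ ((B ×ˢ (P τ)) ∪ ((P τ) ×ˢ B)) := by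
      intro q hq
      rw [Finset.mem_filter, Finset.mem_product] at hq
      rw [Finset.mem_union, Finset.mem_union, Finset.mem_product, Finset.mem_product,
        Finset.mem_filter, Finset.mem_product]
      by_cases h3 : q.1 ∈ B
      · exact Or.inr (Or.inl ⟨h3, hq.1.2⟩)
      · by_cases h4 : q.2 ∈ B
        · exact Or.inr (Or.inr ⟨hq.1.1, h4⟩)
        · left
          refine ⟨⟨?_, ?_⟩, hq.2⟩
          · rw [hP', Finset.mem_filter]
            refine ⟨hq.1.1, fun h => h3 ?_⟩
            rw [hB, Finset.mem_filter]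
            exact ⟨hq.1.1, h⟩
          · rw [hP', Finset.mem_filter]
            refine ⟨hq.1.2, fun h => h4 ?_⟩
            rw [hB, Finset.mem_filter]
            exact ⟨hq.1.2, h⟩
    have h3 : P'.card ≤ a := Finset.card_filter_le _ _
    have h4 : ((B ×ˢ (P τ)) ∪ ((P τ) ×ˢ B)).card ≤ 2 * (B.card * a) := by
      refine (Finset.card_union_le _ _).trans ?_
      rw [Finset.card_product, Finset.card_product, ← ha]
      have : a * B.card = B.card * a := by rw [mul_comm]
      rw [this]
      omega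
    have h5 : Y ≤ ((P' ×ˢ P').filter (fun q => Adj (l q.1) (l q.2))).card +
        ((B ×ˢ (P τ)) ∪ ((P τ) ×ˢ B)).card :=
      (Finset.card_le_card h2).trans (Finset.card_union_le _ _)
    have h6 : 2 * E * ρ * P'.card ≤ 2 * E * ρ * a := Nat.mul_le_mul_left _ h3
    omega
  have htot : a * a - a ≤ 2 * (prs f (W τ) H).card + 2 * Y := by
    rw [ha, ← Finset.offDiag_card]
    have h1 : (P τ).offDiag ⊆ ((prs f (W τ) H) ∪ (prs f (W τ) H).image Prod.swap) ∪
        ((((P τ) ×ˢ (P τ)).filter (fun q => Adj (l q.1) (l q.2))) ∪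
          (((P τ) ×ˢ (P τ)).filter (fun q => Adj (l q.1) (l q.2))).image Prod.swap) := by
      have key : ∀ y z, y ∈ P τ → z ∈ P τ → y < z → (y, z) ∈ prs f (W τ) H ∨
          (y, z) ∈ ((P τ) ×ˢ (P τ)).filter (fun q => Adj (l q.1) (l q.2)) := by
        intro y z hy hz hyz
        by_cases h : f y = f z ∨ (f y, f z) ∉ H
        · left
          unfold prs
          rw [Finset.mem_filter, hnW, hnW]
          exact ⟨Finset.mem_univ _, (hinP τ y).1 hy, (hinP τ z).1 hz, hyz, h⟩
        · right
          push Not at h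
          rw [Finset.mem_filter, Finset.mem_product]
          refine ⟨⟨hy, hz⟩, ?_⟩
          have h2 := h.2
          rw [hH, Finset.mem_image] at h2
          obtain ⟨q, hq, hqe⟩ := h2
          rw [Finset.mem_filter, Finset.mem_product, Finset.mem_image, Finset.mem_image] at hq
          obtain ⟨⟨⟨u, _, hu⟩, ⟨v, _, hv⟩⟩, hadj⟩ := hq
          rw [Prod.mk.injEq] at hqe
          have e1 : q.1 = l y := by
            have := congrArg l hqe.1
            rw [← hu, hg] at this
            rw [← hu, this]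
            exact hg y
          have e2 : q.2 = l z := by
            have := congrArg l hqe.2
            rw [← hv, hg] at this
            rw [← hv, this]
            exact hg z
          rw [← e1, ← e2]
          exact hadj
      intro q hq
      rw [Finset.mem_offDiag] at hq
      rcases lt_or_gt_of_ne hq.2.2 with h | h
      · rcases key q.1 q.2 hq.1 hq.2.1 h with h1 | h1
        · simp only [Finset.mem_union]
          exact Or.inl (Or.inl h1)
        · simp only [Finset.mem_union]
          exact Or.inr (Or.inl h1)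
      · rcases key q.2 q.1 hq.2.1 hq.1 h with h1 | h1
        · simp only [Finset.mem_union]
          exact Or.inl (Or.inr (Finset.mem_image.2 ⟨(q.2, q.1), h1, rfl⟩))
        · simp only [Finset.mem_union]
          exact Or.inr (Or.inr (Finset.mem_image.2 ⟨(q.2, q.1), h1, rfl⟩))
    refine (Finset.card_le_card h1).trans ?_
    refine (Finset.card_union_le _ _).trans ?_
    have h2 := Finset.card_union_le (prs f (W τ) H) ((prs f (W τ) H).image Prod.swap)
    have h3 := Finset.card_image_le (s := prs f (W τ) H) (f := Prod.swap)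
    have h4 := Finset.card_union_le (((P τ) ×ˢ (P τ)).filter (fun q => Adj (l q.1) (l q.2)))
      ((((P τ) ×ˢ (P τ)).filter (fun q => Adj (l q.1) (l q.2))).image Prod.swap)
    have h5 := Finset.card_image_le (s := ((P τ) ×ˢ (P τ)).filter (fun q => Adj (l q.1) (l q.2)))
      (f := Prod.swap)
    omega
  exact numerics k L E a B.card Y (prs f (W τ) H).card hk hE hL1 hbig hkL hk60 hstep1 htot
    hYb hX hBρ

end Pool.Agent.LinRam54
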