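import Pool.Agent.Lib_helper54.LinRam.Iso

/-!
Random linear 3-graphs hitting many prescribed families of triples.
-/

namespace Pool.Agent.LinRam54

open Finset

open Classical in
theorem exists_iso {α ι : Type*} [DecidableEq α] (r : α → α → Prop) (hs : ∀ x y, r x y → r y x)
    (hirr : ∀ x, ¬ r x x) (D : ℕ) (p : ℝ) (hp0 : 0 < p) (hp1 : p ≤ 1 / 16)
    (hpD : p * D ≤ 1 / 16) (A : Finset α) (hdeg : ∀ x ∈ A, (A.filter (r x)).card ≤ D)
    (J : Finset ι) (S : ι → Finset α) (hS : ∀ j ∈ J, S j ⊆ A)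
    (hsum : ∑ j ∈ J, (1 - p / 2) ^ (S j).card < 1) :
    ∃ T ⊆ A, ∀ j ∈ J, ∃ s ∈ S j, s ∈ T ∧ ∀ t ∈ T, ¬ r s t := by
  by_contra hcon
  push Not at hcon
  have h1 : wE p A (fun _ => 1) ≤ wE p A (fun T => ∑ j ∈ J, if NoIso r (S j) T then 1 else 0) := by
    apply wE_mono p hp0.le (by linarith)
    intro T hT
    obtain ⟨j, hj, hjT⟩ := hcon T hT
    have hjT' : NoIso r (S j) T := fun s hs hsT => hjT s hs hsT
    have h5 : (if NoIso r (S j) T then (1 : ℝ) else 0) ≤
        ∑ i ∈ J, if NoIso r (S i) T then (1 : ℝ) else 0 := by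
      apply Finset.single_le_sum (f := fun j => if NoIso r (S j) T then (1 : ℝ) else 0) _ hj
      intro i _
      split_ifs <;> norm_num
    rw [if_pos hjT'] at h5
    exact h5
  rw [wE_one, wE_sum] at h1
  have h2 : ∑ j ∈ J, wE p A (fun T => if NoIso r (S j) T then (1 : ℝ) else 0) ≤
      ∑ j ∈ J, (1 - p / 2) ^ (S j).card := by
    apply Finset.sum_le_sum
    intro j hj
    exact iso_bound r hs hirr D p hp0 hp1 hpD A.card A rfl hdeg (S j) (hS j hj)
  linarith

/-- conflict relation of triples -/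
def Conf {k : ℕ} (e f : Finset (Fin k)) : Prop := e ≠ f ∧ 2 ≤ (e ∩ f).card

open Classical in
theorem conf_deg {k : ℕ} (e : Finset (Fin k)) (he : e ∈ (univ : Finset (Fin k)).powersetCard 3) :
    (((univ : Finset (Fin k)).powersetCard 3).filter (Conf e)).card ≤ 3 * k := by
  have he3 : e.card = 3 := (Finset.mem_powersetCard.1 he).2
  have hsub : ((univ : Finset (Fin k)).powersetCard 3).filter (Conf e) ⊆
      ((e.powersetCard 2) ×ˢ (univ : Finset (Fin k))).image (fun q => insert q.2 q.1) := by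
    intro f hf
    rw [Finset.mem_filter, Finset.mem_powersetCard] at hf
    obtain ⟨⟨_, hf3⟩, hne, hc⟩ := hf
    have hc2 : (e ∩ f).card = 2 := by
      have h1 : (e ∩ f).card ≤ e.card := Finset.card_le_card Finset.inter_subset_left
      by_contra h
      have h3 : (e ∩ f).card = 3 := by omega
      have h4 : e ∩ f = e := Finset.eq_of_subset_of_card_le Finset.inter_subset_left (by omega)
      have h5 : e ∩ f = f := Finset.eq_of_subset_of_card_le Finset.inter_subset_right (by omega)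
      exact hne (h4.symm.trans h5)
    have hd : (f \ (e ∩ f)).card = 1 := by
      rw [Finset.card_sdiff_of_subset Finset.inter_subset_right]
      omega
    obtain ⟨v, hv⟩ := Finset.card_eq_one.1 hd
    rw [Finset.mem_image]
    refine ⟨(e ∩ f, v), ?_, ?_⟩
    · rw [Finset.mem_product, Finset.mem_powersetCard]
      exact ⟨⟨Finset.inter_subset_left, hc2⟩, Finset.mem_univ _⟩
    · have h6 : (e ∩ f) ∪ (f \ (e ∩ f)) = f := Finset.union_sdiff_of_subset Finset.inter_subset_right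
      rw [hv] at h6
      dsimp only
      rw [Finset.insert_eq, Finset.union_comm]
      exact h6
  refine (Finset.card_le_card hsub).trans ?_
  refine Finset.card_image_le.trans ?_
  rw [Finset.card_product, Finset.card_powersetCard, he3]
  simp

theorem exists_linear (k : ℕ) (hk : 0 < k) (J : Finset (Finset (Finset (Fin k))))
    (hJ : ∀ S ∈ J, S ⊆ (univ : Finset (Fin k)).powersetCard 3)
    (hsum : ∑ S ∈ J, (1 - 1 / (96 * (k : ℝ))) ^ S.card < 1) :
    ∃ F : Finset (Finset (Fin k)), (∀ e ∈ F, e.card = 3) ∧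
      (∀ e ∈ F, ∀ f ∈ F, e ≠ f → (e ∩ f).card ≤ 1) ∧ ∀ S ∈ J, ∃ e ∈ F, e ∈ S := by
  classical
  have hkR : (1 : ℝ) ≤ k := by exact_mod_cast hk
  have h := exists_iso (Conf (k := k))
    (fun x y h => ⟨h.1.symm, by rw [Finset.inter_comm]; exact h.2⟩)
    (fun x h => h.1 rfl) (3 * k) (1 / (48 * (k : ℝ))) (by positivity)
    (by
      rw [div_le_div_iff₀ (by positivity) (by norm_num)]
      linarith)
    (by
      push_cast
      have : (1 : ℝ) / (48 * k) * (3 * k) = 1 / 16 := by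
        field_simp
        norm_num
      rw [this])
    ((univ : Finset (Fin k)).powersetCard 3) (fun x hx => conf_deg x hx) J (fun S => S)
    (fun S hS => hJ S hS)
    (by
      have : (1 : ℝ) / (48 * k) / 2 = 1 / (96 * k) := by
        rw [div_div]
        congr 1
        ring
      rw [this]
      exact hsum)
  obtain ⟨T, hT, hTJ⟩ := h
  refine ⟨T.filter (fun e => ∀ t ∈ T, ¬ Conf e t), ?_, ?_, ?_⟩
  · intro e he
    have := hT (Finset.mem_of_mem_filter e he)
    exact (Finset.mem_powersetCard.1 this).2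
  · intro e he f hf hne
    rw [Finset.mem_filter] at he hf
    by_contra hc
    push Not at hc
    exact he.2 f hf.1 ⟨hne, hc⟩
  · intro S hS
    obtain ⟨s, hs, hsT, hst⟩ := hTJ S hS
    exact ⟨s, Finset.mem_filter.2 ⟨hsT, hst⟩, hs⟩

/-- `(1 - 1/(96k))^s ≤ 2^{-j}` when `s ≥ 96 k j`. -/
theorem lam_pow (k : ℕ) (hk : 0 < k) (j s : ℕ) (hs : 96 * k * j ≤ s) :
    (1 - 1 / (96 * (k : ℝ))) ^ s ≤ 1 / 2 ^ j := by
  have hkR : (1 : ℝ) ≤ k := by exact_mod_cast hk
  have h0 : 0 ≤ 1 - 1 / (96 * (k : ℝ)) := by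
    have : 1 / (96 * (k : ℝ)) ≤ 1 := by
      rw [div_le_one (by positivity)]
      linarith
    linarith
  have h1 : 1 - 1 / (96 * (k : ℝ)) ≤ 1 := by
    have : 0 ≤ 1 / (96 * (k : ℝ)) := by positivity
    linarith
  have h2 : (1 - 1 / (96 * (k : ℝ))) ^ s ≤ (1 - 1 / (96 * (k : ℝ))) ^ (96 * k * j) :=
    pow_le_pow_of_le_one h0 h1 hs
  refine h2.trans ?_
  rw [pow_mul]
  have h3 : (1 - 1 / (96 * (k : ℝ))) ^ (96 * k) ≤ 1 / 2 := by
    have h4 : 1 - 1 / (96 * (k : ℝ)) ≤ Real.exp (-(1 / (96 * (k : ℝ)))) := by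
      have := Real.add_one_le_exp (-(1 / (96 * (k : ℝ))))
      linarith
    have h5 : (1 - 1 / (96 * (k : ℝ))) ^ (96 * k) ≤ Real.exp (-(1 / (96 * (k : ℝ)))) ^ (96 * k) :=
      pow_le_pow_left₀ h0 h4 _
    refine h5.trans ?_
    rw [← Real.exp_nat_mul]
    have h6 : ((96 * k : ℕ) : ℝ) * -(1 / (96 * (k : ℝ))) = -1 := by
      push_cast
      field_simp
    rw [h6, Real.exp_neg, ← one_div]
    apply one_div_le_one_div_of_le (by norm_num)
    have := Real.add_one_le_exp 1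
    linarith
  calc ((1 - 1 / (96 * (k : ℝ))) ^ (96 * k)) ^ j ≤ (1 / 2) ^ j :=
        pow_le_pow_left₀ (pow_nonneg h0 _) h3 j
    _ = 1 / 2 ^ j := by rw [div_pow, one_pow]

/-- union bound for a family of at most `2^b` sets, each of size at least `96 k (b+2)` -/
theorem sum_lam (k : ℕ) (hk : 0 < k) (b : ℕ) (J : Finset (Finset (Finset (Fin k))))
    (hJ : J.card ≤ 2 ^ b) (hs : ∀ S ∈ J, 96 * k * (b + 2) ≤ S.card) :
    ∑ S ∈ J, (1 - 1 / (96 * (k : ℝ))) ^ S.card ≤ 1 / 4 := by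
  have h1 : ∑ S ∈ J, (1 - 1 / (96 * (k : ℝ))) ^ S.card ≤ ∑ S ∈ J, (1 : ℝ) / 2 ^ (b + 2) := by
    apply Finset.sum_le_sum
    intro S hS
    exact lam_pow k hk (b + 2) S.card (hs S hS)
  refine h1.trans ?_
  rw [Finset.sum_const, nsmul_eq_mul]
  have h2 : ((J.card : ℕ) : ℝ) ≤ 2 ^ b := by exact_mod_cast hJ
  calc ((J.card : ℕ) : ℝ) * (1 / 2 ^ (b + 2)) ≤ 2 ^ b * (1 / 2 ^ (b + 2)) :=
        mul_le_mul_of_nonneg_right h2 (by positivity)
    _ = 1 / 4 := by
        rw [pow_add]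
        field_simp
        norm_num

/-- number of small subsets -/
theorem card_small_subsets (k t s : ℕ) :
    (((univ : Finset (Finset (Fin k))).filter (fun Z => Z.card ≤ t)).card : ℝ) ≤
      (2 ^ s) ^ t * (1 + 1 / 2 ^ s) ^ k := by
  have h1 := Finset.sum_pow_mul_eq_add_pow (1 / 2 ^ s : ℝ) 1 (univ : Finset (Fin k))
  simp only [one_pow, mul_one, Finset.card_univ, Fintype.card_fin] at h1
  have h2 : ((1 : ℝ) / 2 ^ s) ^ t * (((univ : Finset (Finset (Fin k))).filter (fun Z => Z.card ≤ t)).card : ℝ)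
      ≤ (1 / 2 ^ s + 1) ^ k := by
    rw [← h1]
    have h3 : ((1 : ℝ) / 2 ^ s) ^ t * (((univ : Finset (Finset (Fin k))).filter (fun Z => Z.card ≤ t)).card : ℝ)
        = ∑ Z ∈ (univ : Finset (Finset (Fin k))).filter (fun Z => Z.card ≤ t), ((1 : ℝ) / 2 ^ s) ^ t := by
      rw [Finset.sum_const, nsmul_eq_mul]
      ring
    rw [h3]
    have h01 : (0 : ℝ) ≤ 1 / 2 ^ s := by positivity
    have h02 : (1 : ℝ) / 2 ^ s ≤ 1 := by
      rw [div_le_one (by positivity)]
      exact one_le_pow₀ (by norm_num)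
    calc ∑ Z ∈ (univ : Finset (Finset (Fin k))).filter (fun Z => Z.card ≤ t), ((1 : ℝ) / 2 ^ s) ^ t
        ≤ ∑ Z ∈ (univ : Finset (Finset (Fin k))).filter (fun Z => Z.card ≤ t), ((1 : ℝ) / 2 ^ s) ^ Z.card := by
          apply Finset.sum_le_sum
          intro Z hZ
          exact pow_le_pow_of_le_one h01 h02 (Finset.mem_filter.1 hZ).2
      _ ≤ ∑ Z ∈ (univ : Finset (Fin k)).powerset, ((1 : ℝ) / 2 ^ s) ^ Z.card := by
          apply Finset.sum_le_sum_of_subset_of_nonneg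
          · intro Z _
            simp
          · intro Z _ _
            positivity
  have h4 : ((1 : ℝ) / 2 ^ s) ^ t * (2 ^ s) ^ t = 1 := by
    rw [← mul_pow]
    have : (1 : ℝ) / 2 ^ s * 2 ^ s = 1 := by field_simp
    rw [this, one_pow]
  calc (((univ : Finset (Finset (Fin k))).filter (fun Z => Z.card ≤ t)).card : ℝ)
      = (2 ^ s) ^ t * (((1 : ℝ) / 2 ^ s) ^ t * (((univ : Finset (Finset (Fin k))).filter (fun Z => Z.card ≤ t)).card : ℝ)) := by
        rw [← mul_assoc, mul_comm ((2 ^ s) ^ t : ℝ), h4, one_mul]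
    _ ≤ (2 ^ s) ^ t * (1 / 2 ^ s + 1) ^ k := mul_le_mul_of_nonneg_left h2 (by positivity)
    _ = (2 ^ s) ^ t * (1 + 1 / 2 ^ s) ^ k := by rw [add_comm (1 / 2 ^ s : ℝ)]

end Pool.Agent.LinRam54
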