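import Pool.Agent.Lib_helper54.LinRam.Exist

/-!
Sparse graphs without large independent sets.
-/

namespace Pool.Agent.LinRam54

open Finset

open Classical in
theorem wE_sup {α : Type*} [DecidableEq α] (p : ℝ) (A Z : Finset α) (hZ : Z ⊆ A) :
    wE p A (fun T => if Z ⊆ T then 1 else 0) = p ^ Z.card := by
  have h1 : A = Z ∪ (A \ Z) := (Finset.union_sdiff_of_subset hZ).symm
  have hd : Disjoint Z (A \ Z) := Finset.disjoint_sdiff
  rw [h1, wE_union p Z (A \ Z) hd]
  have h2 : wE p Z (fun T₁ => wE p (A \ Z) (fun T₂ => if Z ⊆ T₁ ∪ T₂ then (1 : ℝ) else 0)) =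
      wE p Z (fun T₁ => if T₁ = Z then 1 else 0) := by
    apply wE_congr
    intro T₁ hT₁
    by_cases h : T₁ = Z
    · subst h
      rw [if_pos rfl]
      have : wE p (A \ T₁) (fun T₂ => if T₁ ⊆ T₁ ∪ T₂ then (1 : ℝ) else 0) =
          wE p (A \ T₁) (fun _ => 1) := by
        apply wE_congr
        intro T₂ _
        rw [if_pos Finset.subset_union_left]
      rw [this, wE_one]
    · rw [if_neg h]
      have : wE p (A \ Z) (fun T₂ => if Z ⊆ T₁ ∪ T₂ then (1 : ℝ) else 0) =
          wE p (A \ Z) (fun _ => 0) := by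
        apply wE_congr
        intro T₂ hT₂
        rw [if_neg]
        intro hsub
        apply h
        apply Finset.Subset.antisymm hT₁
        intro x hx
        have := hsub hx
        rw [Finset.mem_union] at this
        rcases this with h3 | h3
        · exact h3
        · exact absurd hx (Finset.mem_sdiff.1 (hT₂ h3)).2
      rw [this]
      simp [wE]
  rw [h2]
  unfold wE
  rw [Finset.sum_eq_single Z]
  · simp
  · intro T _ hT
    simp [hT]
  · intro h
    simp at h

open Classical in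
theorem wE_disj {α : Type*} [DecidableEq α] (p : ℝ) (A Y : Finset α) (hY : Y ⊆ A) :
    wE p A (fun T => if Disjoint T Y then 1 else 0) = (1 - p) ^ Y.card := by
  have h1 : A = Y ∪ (A \ Y) := (Finset.union_sdiff_of_subset hY).symm
  have hd : Disjoint Y (A \ Y) := Finset.disjoint_sdiff
  rw [h1, wE_union p Y (A \ Y) hd]
  have h2 : wE p Y (fun T₁ => wE p (A \ Y) (fun T₂ => if Disjoint (T₁ ∪ T₂) Y then (1 : ℝ) else 0)) =
      wE p Y (fun T₁ => if T₁ = ∅ then 1 else 0) := by
    apply wE_congr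
    intro T₁ hT₁
    by_cases h : T₁ = ∅
    · subst h
      rw [if_pos rfl]
      have : wE p (A \ Y) (fun T₂ => if Disjoint (∅ ∪ T₂) Y then (1 : ℝ) else 0) =
          wE p (A \ Y) (fun _ => 1) := by
        apply wE_congr
        intro T₂ hT₂
        rw [if_pos]
        rw [Finset.empty_union]
        exact Finset.disjoint_of_subset_left hT₂ Finset.sdiff_disjoint
      rw [this, wE_one]
    · rw [if_neg h]
      have : wE p (A \ Y) (fun T₂ => if Disjoint (T₁ ∪ T₂) Y then (1 : ℝ) else 0) =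
          wE p (A \ Y) (fun _ => 0) := by
        apply wE_congr
        intro T₂ hT₂
        rw [if_neg]
        intro hdis
        apply h
        rw [Finset.eq_empty_iff_forall_notMem]
        intro x hx
        exact (Finset.disjoint_left.1 hdis) (Finset.mem_union_left _ hx) (hT₁ hx)
      rw [this]
      simp [wE]
  rw [h2]
  unfold wE
  rw [Finset.sum_eq_single ∅]
  · simp
  · intro T _ hT
    simp [hT]
  · intro h
    simp at h

open Classical in
theorem exists_T {α : Type*} [DecidableEq α] (p : ℝ) (hp0 : 0 ≤ p) (hp1 : p ≤ 1) (A : Finset α)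
    (ZZ YY : Finset (Finset α)) (hZ : ∀ Z ∈ ZZ, Z ⊆ A) (hY : ∀ Y ∈ YY, Y ⊆ A)
    (hsum : ∑ Z ∈ ZZ, p ^ Z.card + ∑ Y ∈ YY, (1 - p) ^ Y.card < 1) :
    ∃ T ⊆ A, (∀ Z ∈ ZZ, ¬ Z ⊆ T) ∧ ∀ Y ∈ YY, ¬ Disjoint T Y := by
  by_contra hcon
  push Not at hcon
  have h1 : wE p A (fun _ => 1) ≤ wE p A (fun T => (∑ Z ∈ ZZ, if Z ⊆ T then 1 else 0) +
      ∑ Y ∈ YY, if Disjoint T Y then 1 else 0) := by
    apply wE_mono p hp0 hp1
    intro T hT
    have hn1 : (0 : ℝ) ≤ ∑ Z ∈ ZZ, if Z ⊆ T then (1 : ℝ) else 0 := by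
      apply Finset.sum_nonneg
      intro i _
      split_ifs <;> norm_num
    have hn2 : (0 : ℝ) ≤ ∑ Y ∈ YY, if Disjoint T Y then (1 : ℝ) else 0 := by
      apply Finset.sum_nonneg
      intro i _
      split_ifs <;> norm_num
    by_cases h : ∀ Z ∈ ZZ, ¬ Z ⊆ T
    · obtain ⟨Y, hYY, hTY⟩ := hcon T hT h
      have h5 : (if Disjoint T Y then (1 : ℝ) else 0) ≤ ∑ Y ∈ YY, if Disjoint T Y then (1 : ℝ) else 0 := by
        apply Finset.single_le_sum (f := fun Y => if Disjoint T Y then (1 : ℝ) else 0) _ hYY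
        intro i _
        split_ifs <;> norm_num
      rw [if_pos hTY] at h5
      linarith
    · push Not at h
      obtain ⟨Z, hZZ, hZT⟩ := h
      have h5 : (if Z ⊆ T then (1 : ℝ) else 0) ≤ ∑ Z ∈ ZZ, if Z ⊆ T then (1 : ℝ) else 0 := by
        apply Finset.single_le_sum (f := fun Z => if Z ⊆ T then (1 : ℝ) else 0) _ hZZ
        intro i _
        split_ifs <;> norm_num
      rw [if_pos hZT] at h5
      linarith
  rw [wE_one, wE_add, wE_sum, wE_sum] at h1
  have h2 : ∑ Z ∈ ZZ, wE p A (fun T => if Z ⊆ T then (1 : ℝ) else 0) = ∑ Z ∈ ZZ, p ^ Z.card := by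
    apply Finset.sum_congr rfl
    intro Z hZZ
    exact wE_sup p A Z (hZ Z hZZ)
  have h3 : ∑ Y ∈ YY, wE p A (fun T => if Disjoint T Y then (1 : ℝ) else 0) =
      ∑ Y ∈ YY, (1 - p) ^ Y.card := by
    apply Finset.sum_congr rfl
    intro Y hYY
    exact wE_disj p A Y (hY Y hYY)
  rw [h2, h3] at h1
  linarith

theorem sum_biUnion_le54 {α ι : Type*} [DecidableEq α] (s : Finset ι) (t : ι → Finset α) (f : α → ℝ)
    (hf : ∀ x, 0 ≤ f x) : ∑ x ∈ s.biUnion t, f x ≤ ∑ i ∈ s, ∑ x ∈ t i, f x := by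
  classical
  induction s using Finset.induction_on with
  | empty => simp
  | insert a s ha ih =>
    rw [Finset.biUnion_insert, Finset.sum_insert ha]
    have h1 : ∑ x ∈ t a ∪ s.biUnion t, f x ≤ ∑ x ∈ t a, f x + ∑ x ∈ s.biUnion t, f x := by
      rw [← Finset.sum_union_inter]
      have : 0 ≤ ∑ x ∈ t a ∩ s.biUnion t, f x := Finset.sum_nonneg (fun x _ => hf x)
      linarith
    linarith

/-- Sparse graph with no independent set of size `4^b` on `4^(b e)` vertices. -/
theorem exists_gamma (k E e b : ℕ) (he : 2 * e + 1 ≤ E) (hb1 : 4 * b * e + 3 ≤ 2 ^ b)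
    (hb2 : 4 * ((k + 1) * 2 ^ (k * k)) ≤ 2 ^ b) :
    ∃ T : Finset (Finset (Fin (4 ^ (b * e)))), (∀ t ∈ T, t.card = 2) ∧
      (∀ S : Finset (Fin (4 ^ (b * e))), S.card ≤ k →
        (T.filter (fun t => t ⊆ S)).card ≤ E * S.card) ∧
      (∀ S : Finset (Fin (4 ^ (b * e))), S.card = 4 ^ b → ∃ t ∈ T, t ⊆ S) := by
  classical
  set m := 4 ^ (b * e) with hm
  set A : Finset (Finset (Fin m)) := (univ : Finset (Fin m)).powersetCard 2 with hA
  set ZZ : Finset (Finset (Finset (Fin m))) :=
    ((univ : Finset (Finset (Fin m))).filter (fun S => S.card ≤ k)).biUnion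
      (fun S => (S.powersetCard 2).powersetCard (E * S.card + 1)) with hZZ
  set YY : Finset (Finset (Finset (Fin m))) :=
    ((univ : Finset (Fin m)).powersetCard (4 ^ b)).image (fun S => S.powersetCard 2) with hYY
  set p : ℝ := 1 / 2 ^ b with hp
  have hp0 : 0 < p := by positivity
  have h2b : (1 : ℝ) ≤ 2 ^ b := one_le_pow₀ (by norm_num)
  have hp1 : p ≤ 1 := by
    rw [hp, div_le_one (by positivity)]
    exact h2b
  have hmR : (m : ℝ) = (2 ^ b) ^ (2 * e) := by
    rw [hm]
    push_cast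
    rw [← pow_mul]
    have : (4 : ℝ) = 2 ^ 2 := by norm_num
    rw [this, ← pow_mul]
    congr 1
    ring
  have hmpE : (m : ℝ) * p ^ E ≤ 1 := by
    have h1 : p ^ E ≤ p ^ (2 * e) := pow_le_pow_of_le_one hp0.le hp1 (by omega)
    calc (m : ℝ) * p ^ E ≤ m * p ^ (2 * e) := mul_le_mul_of_nonneg_left h1 (by positivity)
      _ = 1 := by
        rw [hmR, hp, ← mul_pow]
        have : (2 : ℝ) ^ b * (1 / 2 ^ b) = 1 := by field_simp
        rw [this, one_pow]
  have hsZ : ∑ Z ∈ ZZ, p ^ Z.card ≤ 1 / 4 := by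
    have h1 : ∑ Z ∈ ZZ, p ^ Z.card ≤
        ∑ S ∈ (univ : Finset (Finset (Fin m))).filter (fun S => S.card ≤ k),
          ∑ Z ∈ (S.powersetCard 2).powersetCard (E * S.card + 1), p ^ Z.card := by
      rw [hZZ]
      exact sum_biUnion_le54 _ _ _ (fun x => by positivity)
    have h2 : ∀ S ∈ (univ : Finset (Finset (Fin m))).filter (fun S => S.card ≤ k),
        ∑ Z ∈ (S.powersetCard 2).powersetCard (E * S.card + 1), p ^ Z.card ≤
          2 ^ (k * k) * p * (p ^ E) ^ S.card := by
      intro S hS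
      have hSk : S.card ≤ k := (Finset.mem_filter.1 hS).2
      have h3 : ∑ Z ∈ (S.powersetCard 2).powersetCard (E * S.card + 1), p ^ Z.card =
          (((S.powersetCard 2).powersetCard (E * S.card + 1)).card : ℝ) * p ^ (E * S.card + 1) := by
        rw [Finset.sum_congr rfl (fun Z hZ => by rw [(Finset.mem_powersetCard.1 hZ).2]), Finset.sum_const,
          nsmul_eq_mul]
      rw [h3]
      have h4 : (((S.powersetCard 2).powersetCard (E * S.card + 1)).card : ℝ) ≤ 2 ^ (k * k) := by
        have h5 : ((S.powersetCard 2).powersetCard (E * S.card + 1)).card ≤ 2 ^ (k * k) := by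
          rw [Finset.card_powersetCard, Finset.card_powersetCard]
          refine (Nat.choose_le_two_pow _ _).trans ?_
          apply Nat.pow_le_pow_right (by norm_num)
          refine (Nat.choose_le_pow _ _).trans ?_
          rw [pow_two]
          exact Nat.mul_le_mul hSk hSk
        exact_mod_cast h5
      calc (((S.powersetCard 2).powersetCard (E * S.card + 1)).card : ℝ) * p ^ (E * S.card + 1)
          ≤ 2 ^ (k * k) * p ^ (E * S.card + 1) := mul_le_mul_of_nonneg_right h4 (by positivity)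
        _ = 2 ^ (k * k) * p * (p ^ E) ^ S.card := by
            rw [pow_succ, pow_mul]
            ring
    have h3 : (univ : Finset (Finset (Fin m))).filter (fun S => S.card ≤ k) =
        (range (k + 1)).biUnion (fun s => (univ : Finset (Fin m)).powersetCard s) := by
      ext S
      rw [Finset.mem_filter, Finset.mem_biUnion]
      constructor
      · intro h
        exact ⟨S.card, Finset.mem_range.2 (by omega), Finset.mem_powersetCard.2 ⟨Finset.subset_univ _, rfl⟩⟩
      · rintro ⟨s, hs, hS⟩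
        rw [Finset.mem_range] at hs
        rw [Finset.mem_powersetCard] at hS
        exact ⟨Finset.mem_univ _, by omega⟩
    have h4 : ∑ S ∈ (univ : Finset (Finset (Fin m))).filter (fun S => S.card ≤ k),
        2 ^ (k * k) * p * (p ^ E) ^ S.card ≤ ∑ s ∈ range (k + 1), 2 ^ (k * k) * p := by
      rw [h3]
      refine (sum_biUnion_le54 _ _ _ (fun x => by positivity)).trans ?_
      apply Finset.sum_le_sum
      intro s _
      have h5 : ∑ S ∈ (univ : Finset (Fin m)).powersetCard s, 2 ^ (k * k) * p * (p ^ E) ^ S.card =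
          (((univ : Finset (Fin m)).powersetCard s).card : ℝ) * (2 ^ (k * k) * p * (p ^ E) ^ s) := by
        rw [Finset.sum_congr rfl (fun Z hZ => by rw [(Finset.mem_powersetCard.1 hZ).2]), Finset.sum_const,
          nsmul_eq_mul]
      rw [h5]
      have h6 : (((univ : Finset (Fin m)).powersetCard s).card : ℝ) ≤ (m : ℝ) ^ s := by
        rw [Finset.card_powersetCard, Finset.card_univ, Fintype.card_fin]
        exact_mod_cast Nat.choose_le_pow m s
      calc (((univ : Finset (Fin m)).powersetCard s).card : ℝ) * (2 ^ (k * k) * p * (p ^ E) ^ s)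
          ≤ (m : ℝ) ^ s * (2 ^ (k * k) * p * (p ^ E) ^ s) :=
            mul_le_mul_of_nonneg_right h6 (by positivity)
        _ = 2 ^ (k * k) * p * (m * p ^ E) ^ s := by
            rw [mul_pow]
            ring
        _ ≤ 2 ^ (k * k) * p * 1 := by
            apply mul_le_mul_of_nonneg_left _ (by positivity)
            exact pow_le_one₀ (by positivity) hmpE
        _ = 2 ^ (k * k) * p := by ring
    refine h1.trans ((Finset.sum_le_sum h2).trans (h4.trans ?_))
    rw [Finset.sum_const, Finset.card_range, nsmul_eq_mul, hp]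
    have h5 : (4 : ℝ) * (((k : ℝ) + 1) * 2 ^ (k * k)) ≤ 2 ^ b := by exact_mod_cast hb2
    push_cast
    have h6 : ((k : ℝ) + 1) * (2 ^ (k * k) * (1 / 2 ^ b)) = (((k : ℝ) + 1) * 2 ^ (k * k)) / 2 ^ b := by ring
    rw [h6, div_le_div_iff₀ (by positivity) (by norm_num)]
    linarith
  have hsY : ∑ Y ∈ YY, (1 - p) ^ Y.card ≤ 1 / 4 := by
    have h0 : 0 ≤ 1 - p := by linarith
    -- size of each set
    have hYc : ∀ Y ∈ YY, Y.card = (4 ^ b).choose 2 := by
      intro Y hY
      rw [hYY, Finset.mem_image] at hY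
      obtain ⟨S, hS, rfl⟩ := hY
      rw [Finset.card_powersetCard, (Finset.mem_powersetCard.1 hS).2]
    have h1 : ∑ Y ∈ YY, (1 - p) ^ Y.card = (YY.card : ℝ) * (1 - p) ^ (4 ^ b).choose 2 := by
      rw [Finset.sum_congr rfl (fun Y hY => by rw [hYc Y hY]), Finset.sum_const, nsmul_eq_mul]
    rw [h1]
    have h2 : (YY.card : ℝ) ≤ 2 ^ (2 * (b * e) * 4 ^ b) := by
      have h3 : YY.card ≤ 2 ^ (2 * (b * e) * 4 ^ b) := by
        refine Finset.card_image_le.trans ?_
        rw [Finset.card_powersetCard, Finset.card_univ, Fintype.card_fin]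
        refine (Nat.choose_le_pow _ _).trans (le_of_eq ?_)
        rw [hm, pow_mul, show (4 : ℕ) = 2 ^ 2 by norm_num, ← pow_mul, ← pow_mul, ← pow_mul, ← pow_mul]
        congr 1
        ring
      exact_mod_cast h3
    have h3 : (1 - p) ^ (2 ^ b) ≤ 1 / 2 := by
      have h4 : 1 - p ≤ Real.exp (-p) := by
        have := Real.add_one_le_exp (-p)
        linarith
      have h5 : (1 - p) ^ (2 ^ b) ≤ Real.exp (-p) ^ (2 ^ b) := pow_le_pow_left₀ h0 h4 _
      refine h5.trans ?_
      rw [← Real.exp_nat_mul]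
      have h6 : ((2 ^ b : ℕ) : ℝ) * -p = -1 := by
        rw [hp]
        push_cast
        field_simp
      rw [h6, Real.exp_neg, ← one_div]
      apply one_div_le_one_div_of_le (by norm_num)
      have := Real.add_one_le_exp 1
      linarith
    -- exponent
    have h4 : 2 ^ b * (2 * (b * e) * 4 ^ b + 2) ≤ (4 ^ b).choose 2 := by
      rw [Nat.choose_two_right, Nat.le_div_iff_mul_le (by norm_num)]
      have h44 : 4 ^ b = 2 ^ b * 2 ^ b := by
        rw [show (4 : ℕ) = 2 * 2 by norm_num, mul_pow]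
      rw [h44]
      generalize 2 ^ b = q at *
      have hq1 : 3 ≤ q := by omega
      -- goal: q * (2*(b*e)*(q*q) + 2) * 2 ≤ q*q*(q*q-1)
      have h5 : q * q - 1 + 1 = q * q := by
        have : 0 < q * q := by positivity
        omega
      have h6 : (4 * b * e + 3) * (q * q) ≤ q * (q * q) := Nat.mul_le_mul_right _ hb1
      have h7 : (2 * (b * e) * (q * q) + 2) * 2 + q ≤ q * (q * q) := by
        have h8 : (4 * b * e + 3) * (q * q) = 2 * (b * e) * (q * q) * 2 + 3 * (q * q) := by ring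
        have h9 : 3 * q ≤ q * q := Nat.mul_le_mul_right _ hq1
        rw [h8] at h6
        nlinarith
      have h10 : q * (2 * (b * e) * (q * q) + 2) * 2 + q * q ≤ q * q * (q * q - 1) + q * q := by
        calc q * (2 * (b * e) * (q * q) + 2) * 2 + q * q
            = q * ((2 * (b * e) * (q * q) + 2) * 2 + q) := by ring
          _ ≤ q * (q * (q * q)) := Nat.mul_le_mul_left _ h7
          _ = q * q * (q * q) := by ring
          _ = q * q * (q * q - 1 + 1) := by rw [h5]
          _ = q * q * (q * q - 1) + q * q := by ring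
      exact Nat.le_of_add_le_add_right h10
    have h5 : (1 - p) ^ (4 ^ b).choose 2 ≤ (1 / 2) ^ (2 * (b * e) * 4 ^ b + 2) := by
      calc (1 - p) ^ (4 ^ b).choose 2 ≤ (1 - p) ^ (2 ^ b * (2 * (b * e) * 4 ^ b + 2)) :=
            pow_le_pow_of_le_one h0 (by linarith) h4
        _ = ((1 - p) ^ (2 ^ b)) ^ (2 * (b * e) * 4 ^ b + 2) := by rw [pow_mul]
        _ ≤ (1 / 2) ^ (2 * (b * e) * 4 ^ b + 2) := pow_le_pow_left₀ (pow_nonneg h0 _) h3 _
    calc (YY.card : ℝ) * (1 - p) ^ (4 ^ b).choose 2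
        ≤ 2 ^ (2 * (b * e) * 4 ^ b) * (1 / 2) ^ (2 * (b * e) * 4 ^ b + 2) :=
          mul_le_mul h2 h5 (pow_nonneg h0 _) (by positivity)
      _ = 1 / 4 := by
          rw [pow_add, ← mul_assoc, ← mul_pow]
          norm_num
  obtain ⟨T, hTA, hTZ, hTY⟩ := exists_T p hp0.le hp1 A ZZ YY (by
    intro Z hZ
    rw [hZZ, Finset.mem_biUnion] at hZ
    obtain ⟨S, _, hZS⟩ := hZ
    rw [Finset.mem_powersetCard] at hZS
    intro t ht
    have := hZS.1 ht
    rw [Finset.mem_powersetCard] at this
    rw [hA, Finset.mem_powersetCard]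
    exact ⟨Finset.subset_univ _, this.2⟩) (by
    intro Y hY
    rw [hYY, Finset.mem_image] at hY
    obtain ⟨S, _, rfl⟩ := hY
    exact Finset.powersetCard_mono (Finset.subset_univ _)) (by linarith)
  refine ⟨T, ?_, ?_, ?_⟩
  · intro t ht
    exact (Finset.mem_powersetCard.1 (hTA ht)).2
  · intro S hS
    by_contra hcon
    push Not at hcon
    obtain ⟨Z, hZ, hZc⟩ := Finset.exists_subset_card_eq (show E * S.card + 1 ≤ (T.filter (fun t => t ⊆ S)).card by omega)
    apply hTZ Z
    · rw [hZZ, Finset.mem_biUnion]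
      refine ⟨S, Finset.mem_filter.2 ⟨Finset.mem_univ _, hS⟩, ?_⟩
      rw [Finset.mem_powersetCard]
      refine ⟨?_, hZc⟩
      intro t ht
      have h1 := Finset.mem_filter.1 (hZ ht)
      rw [Finset.mem_powersetCard]
      exact ⟨h1.2, (Finset.mem_powersetCard.1 (hTA h1.1)).2⟩
    · exact hZ.trans (Finset.filter_subset _ _)
  · intro S hS
    have h1 := hTY (S.powersetCard 2) (by
      rw [hYY, Finset.mem_image]
      exact ⟨S, Finset.mem_powersetCard.2 ⟨Finset.subset_univ _, hS⟩, rfl⟩)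
    rw [Finset.not_disjoint_iff] at h1
    obtain ⟨t, ht, htS⟩ := h1
    exact ⟨t, ht, (Finset.mem_powersetCard.1 htS).1⟩

end Pool.Agent.LinRam54
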