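import Pool.Agent.Lib_helper54.LinRam.Core
import Pool.Agent.Lib_helper54.LinRam.Gam
import Pool.Agent.Lib_helper54.LinRam.Col

/-!
Putting the pieces together.
-/

namespace Pool.Agent.LinRam54

open Finset

/-- adjacency on `Fin m` from a family of pairs -/
def AdjT {m : ℕ} (T : Finset (Finset (Fin m))) (i j : Fin m) : Prop := i ≠ j ∧ {i, j} ∈ T

theorem adjT_symm {m : ℕ} (T : Finset (Finset (Fin m))) (i j : Fin m) (h : AdjT T i j) : AdjT T j i :=
  ⟨h.1.symm, by rw [Finset.pair_comm]; exact h.2⟩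

/-- adjacency transported to the natural numbers -/
def AdjN {m : ℕ} (T : Finset (Finset (Fin m))) (i j : ℕ) : Prop :=
  ∃ (hi : i < m) (hj : j < m), AdjT T ⟨i, hi⟩ ⟨j, hj⟩

open Classical in
theorem sparseN {m : ℕ} (hm : 0 < m) (k E : ℕ) (T : Finset (Finset (Fin m)))
    (hT : ∀ S : Finset (Fin m), S.card ≤ k → (T.filter (fun t => t ⊆ S)).card ≤ E * S.card)
    (S : Finset ℕ) (hS : S.card ≤ k) :
    ((S ×ˢ S).filter (fun q => AdjN T q.1 q.2)).card ≤ 2 * E * S.card := by
  set S' : Finset (Fin m) := univ.filter (fun i => i.1 ∈ S) with hS'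
  have hc : S'.card ≤ S.card := by
    apply Finset.card_le_card_of_injOn (fun i => i.1)
    · intro i hi
      rw [Finset.mem_coe, hS', Finset.mem_filter] at hi
      exact hi.2
    · intro i _ j _ h
      exact Fin.ext h
  have h1 := hT S' (hc.trans hS)
  have hinj : ((S ×ˢ S).filter (fun q => q.1 < q.2 ∧ AdjN T q.1 q.2)).card ≤
      (T.filter (fun t => t ⊆ S')).card := by
    set c : ℕ → Fin m := fun i => if h : i < m then ⟨i, h⟩ else ⟨0, hm⟩ with hcdef
    have hcv : ∀ i, i < m → (c i).1 = i := by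
      intro i hi
      rw [hcdef]
      show (if h : i < m then (⟨i, h⟩ : Fin m) else ⟨0, hm⟩).1 = i
      rw [dif_pos hi]
    have hceq : ∀ i (hi : i < m), c i = ⟨i, hi⟩ := by
      intro i hi
      apply Fin.ext
      exact hcv i hi
    apply Finset.card_le_card_of_injOn (fun q => ({c q.1, c q.2} : Finset (Fin m)))
    · intro q hq
      rw [Finset.mem_coe, Finset.mem_filter, Finset.mem_product] at hq
      obtain ⟨⟨hq1, hq2⟩, _, hi, hj, hadj⟩ := hq
      rw [Finset.mem_coe, Finset.mem_filter]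
      show {c q.1, c q.2} ∈ T ∧ {c q.1, c q.2} ⊆ S'
      rw [hceq q.1 hi, hceq q.2 hj]
      refine ⟨hadj.2, ?_⟩
      intro x hx
      rw [Finset.mem_insert, Finset.mem_singleton] at hx
      rw [hS', Finset.mem_filter]
      rcases hx with rfl | rfl
      · exact ⟨Finset.mem_univ _, hq1⟩
      · exact ⟨Finset.mem_univ _, hq2⟩
    · intro q hq q' hq' he
      rw [Finset.mem_coe, Finset.mem_filter, Finset.mem_product] at hq hq'
      obtain ⟨_, hlt, hi, hj, _⟩ := hq
      obtain ⟨_, hlt', hi', hj', _⟩ := hq'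
      dsimp only at he
      have e1 : c q.1 = c q'.1 ∨ c q.1 = c q'.2 := by
        have : c q.1 ∈ ({c q'.1, c q'.2} : Finset (Fin m)) := by rw [← he]; simp
        simpa using this
      have e2 : c q.2 = c q'.1 ∨ c q.2 = c q'.2 := by
        have : c q.2 ∈ ({c q'.1, c q'.2} : Finset (Fin m)) := by rw [← he]; simp
        simpa using this
      have f1 : q.1 = q'.1 ∨ q.1 = q'.2 := by
        rcases e1 with h | h
        · left
          rw [← hcv q.1 hi, h, hcv q'.1 hi']
        · right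
          rw [← hcv q.1 hi, h, hcv q'.2 hj']
      have f2 : q.2 = q'.1 ∨ q.2 = q'.2 := by
        rcases e2 with h | h
        · left
          rw [← hcv q.2 hj, h, hcv q'.1 hi']
        · right
          rw [← hcv q.2 hj, h, hcv q'.2 hj']
      apply Prod.ext <;> omega
  have hsub : (S ×ˢ S).filter (fun q => AdjN T q.1 q.2) ⊆
      ((S ×ˢ S).filter (fun q => q.1 < q.2 ∧ AdjN T q.1 q.2)) ∪
        ((S ×ˢ S).filter (fun q => q.1 < q.2 ∧ AdjN T q.1 q.2)).image Prod.swap := by
    intro q hq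
    rw [Finset.mem_filter, Finset.mem_product] at hq
    obtain ⟨⟨hq1, hq2⟩, hi, hj, hadj⟩ := hq
    rw [Finset.mem_union]
    have hne : q.1 ≠ q.2 := by
      intro h
      apply hadj.1
      apply Fin.ext
      exact h
    rcases lt_or_gt_of_ne hne with h | h
    · left
      rw [Finset.mem_filter, Finset.mem_product]
      exact ⟨⟨hq1, hq2⟩, h, hi, hj, hadj⟩
    · right
      rw [Finset.mem_image]
      refine ⟨(q.2, q.1), ?_, rfl⟩
      rw [Finset.mem_filter, Finset.mem_product]
      exact ⟨⟨hq2, hq1⟩, h, hj, hi, adjT_symm T _ _ hadj⟩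
  have h2 := (Finset.card_le_card hsub).trans (Finset.card_union_le _ _)
  have h3 := Finset.card_image_le (s := (S ×ˢ S).filter (fun q => q.1 < q.2 ∧ AdjN T q.1 q.2))
    (f := Prod.swap)
  have h4 : E * S'.card ≤ E * S.card := Nat.mul_le_mul_left _ hc
  have h5 : 2 * E * S.card = 2 * (E * S.card) := by ring
  omega

open Classical in
/-- number of independent sets -/
theorem indep_count (m a : ℕ) (h2m : 2 ≤ m) (T : Finset (Finset (Fin m)))
    (hT2 : ∀ t ∈ T, t.card = 2)
    (hT : ∀ S : Finset (Fin m), S.card = a → ∃ t ∈ T, t ⊆ S) :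
    ((univ : Finset (Finset (Fin m))).filter
      (fun I => ∀ i ∈ I, ∀ j ∈ I, ¬ AdjT T i j)).card < m ^ a := by
  have hsub : (univ : Finset (Finset (Fin m))).filter (fun I => ∀ i ∈ I, ∀ j ∈ I, ¬ AdjT T i j) ⊆
      (range a).biUnion (fun s => (univ : Finset (Fin m)).powersetCard s) := by
    intro I hI
    rw [Finset.mem_filter] at hI
    rw [Finset.mem_biUnion]
    refine ⟨I.card, ?_, Finset.mem_powersetCard.2 ⟨Finset.subset_univ _, rfl⟩⟩
    rw [Finset.mem_range]
    by_contra h
    push Not at h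
    obtain ⟨S, hSI, hSc⟩ := Finset.exists_subset_card_eq h
    obtain ⟨t, ht, htS⟩ := hT S hSc
    obtain ⟨i, j, hij, rfl⟩ := Finset.card_eq_two.1 (hT2 t ht)
    exact hI.2 i (hSI (htS (by simp))) j (hSI (htS (by simp))) ⟨hij, ht⟩
  calc ((univ : Finset (Finset (Fin m))).filter (fun I => ∀ i ∈ I, ∀ j ∈ I, ¬ AdjT T i j)).card
      ≤ ((range a).biUnion (fun s => (univ : Finset (Fin m)).powersetCard s)).card :=
        Finset.card_le_card hsub
    _ ≤ ∑ s ∈ range a, ((univ : Finset (Fin m)).powersetCard s).card := Finset.card_biUnion_le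
    _ ≤ ∑ s ∈ range a, m ^ s := by
        apply Finset.sum_le_sum
        intro s _
        rw [Finset.card_powersetCard, Finset.card_univ, Fintype.card_fin]
        exact Nat.choose_le_pow m s
    _ < m ^ a := Nat.geomSum_lt h2m (fun s hs => Finset.mem_range.1 hs)

open Classical in
/-- no red copy of a good 3-graph -/
theorem no_red (k L E : ℕ) (hk : 0 < k) (hE : 1 ≤ E) (hL : k < 2 ^ L) (hbig : 2 ^ 60 * (E * L) ≤ k)
    (F : Finset (Finset (Fin k)))
    (hF : Good k (2 * E * k) (96 * k * (L * k + k + 2))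
      (96 * k * (L * k + k + 2 * L * (2 * E * k + 1) + 2)) (k / 2 ^ 14) F)
    (m : ℕ) (hm : 0 < m) (T : Finset (Finset (Fin m)))
    (hT : ∀ S : Finset (Fin m), S.card ≤ k → (T.filter (fun t => t ⊆ S)).card ≤ E * S.card)
    (φ : Fin k → (Fin m → Bool)) (hφ : Function.Injective φ)
    (hred : ∀ e ∈ F, RedS (AdjT T) (e.image φ)) : False := by
  -- lexicographically least vertex
  have hne : (univ : Finset (Fin k)).Nonempty := ⟨⟨0, hk⟩, Finset.mem_univ _⟩
  obtain ⟨x0, _, hx0⟩ := Finset.exists_min_image (univ : Finset (Fin k)) (fun v => toLex (φ v)) hne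
  have hlev : ∀ v, v ≠ x0 → ∃ i : Fin m, (∀ t < i, φ v t = φ x0 t) ∧ φ v i = true ∧ φ x0 i = false := by
    intro v hv
    have h1 : toLex (φ x0) < toLex (φ v) := by
      refine lt_of_le_of_ne (hx0 v (Finset.mem_univ _)) ?_
      intro h
      exact hv (hφ (toLex.injective h)).symm
    obtain ⟨i, hi1, hi2⟩ := h1
    refine ⟨i, fun t ht => (hi1 t ht).symm, ?_⟩
    have hi3 : φ x0 i < φ v i := hi2
    revert hi3
    cases φ x0 i <;> cases φ v i <;> simp
  have : Nonempty (Fin m) := ⟨⟨0, hm⟩⟩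
  choose! lev hlev using hlev
  set l : Fin k → ℕ := fun v => if v = x0 then m else (lev v).1 with hl
  have hl0 : l x0 = m := by
    rw [hl]
    simp
  have hlv : ∀ v, v ≠ x0 → l v = (lev v).1 := by
    intro v hv
    rw [hl]
    simp [hv]
  refine core k L E hk hE hL hbig F hF l m x0 hl0 (fun v hv => by rw [hlv v hv]; exact (lev v).2)
    (AdjN T) (sparseN hm k E T hT) ?_
  intro e he x hx y hy z hz hxy hxz hyz hlyx hlzx
  have hlx : l x ≤ m := by
    by_cases h : x = x0
    · rw [h, hl0]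
    · rw [hlv x h]
      exact (lev x).2.le
  have hy0 : y ≠ x0 := by
    intro h
    rw [h, hl0] at hlyx
    omega
  have hz0 : z ≠ x0 := by
    intro h
    rw [h, hl0] at hlzx
    omega
  have hexyz : e = {x, y, z} := by
    symm
    apply Finset.eq_of_subset_of_card_le
    · intro v hv
      simp only [Finset.mem_insert, Finset.mem_singleton] at hv
      rcases hv with rfl | rfl | rfl <;> assumption
    · rw [hF.card3 e he, Finset.card_eq_three.2 ⟨x, y, z, hxy, hxz, hyz, rfl⟩]
  have hr := hred e he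
  rw [hexyz, Finset.image_insert, Finset.image_insert, Finset.image_singleton] at hr
  have hxb : ∀ t, t.1 < l x → φ x t = φ x0 t := by
    intro t ht
    by_cases h : x = x0
    · rw [h]
    · rw [hlv x h] at ht
      exact (hlev x h).1 t ht
  obtain ⟨hy1, hy2, hy3⟩ := hlev y hy0
  obtain ⟨hz1, hz2, hz3⟩ := hlev z hz0
  rw [hlv y hy0] at hlyx ⊢
  rw [hlv z hz0] at hlzx ⊢
  have h := red_triple (AdjT T) (φ x0) (φ x) (φ y) (φ z) (hφ.ne hxy) (hφ.ne hxz) (hφ.ne hyz) hr
    (lev y) (lev z) hy1 hy2 hy3 hz1 hz2 hz3 (by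
      intro t ht
      apply hxb
      rcases ht with ht | ht
      · exact lt_of_le_of_lt (Fin.le_def.1 ht) hlyx
      · exact lt_of_le_of_lt (Fin.le_def.1 ht) hlzx)
  refine ⟨fun h' => h.1 (Fin.ext h'), (lev y).2, (lev z).2, ?_⟩
  rcases h.2 with h2 | h2
  · exact h2
  · exact adjT_symm T _ _ h2

end Pool.Agent.LinRam54
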