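import Pool.Agent.Lib_helper54.LinRam.Exist

/-!
Existence of a linear 3-graph which meets all the level families.
-/

namespace Pool.Agent.LinRam54

open Finset

open Classical in
/-- triples with one vertex `x` in `W` and two vertices `y ≠ z` outside `W` which are either in the
same `f`-class or whose pair of classes is not in `H` -/
noncomputable def tgt {k : ℕ} (f : Fin k → Fin k) (W : Finset (Fin k)) (H : Finset (Fin k × Fin k)) :
    Finset (Finset (Fin k)) :=
  ((univ : Finset (Fin k)).powersetCard 3).filter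
    (fun e => ∃ x ∈ W, ∃ y, y ∉ W ∧ ∃ z, z ∉ W ∧ y ≠ z ∧ e = {x, y, z} ∧ (f y = f z ∨ (f y, f z) ∉ H))

open Classical in
/-- triples containing `x` and otherwise outside `Z` -/
noncomputable def tgtD {k : ℕ} (x : Fin k) (Z : Finset (Fin k)) : Finset (Finset (Fin k)) :=
  ((univ : Finset (Fin k)).powersetCard 3).filter (fun e => x ∈ e ∧ ∀ y ∈ e, y ≠ x → y ∉ Z)

open Classical in
/-- pairs counted in `tgt` -/
noncomputable def prs {k : ℕ} (f : Fin k → Fin k) (W : Finset (Fin k)) (H : Finset (Fin k × Fin k)) :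
    Finset (Fin k × Fin k) :=
  (univ : Finset (Fin k × Fin k)).filter
    (fun q => q.1 ∉ W ∧ q.2 ∉ W ∧ q.1 < q.2 ∧ (f q.1 = f q.2 ∨ (f q.1, f q.2) ∉ H))

theorem card_tgt {k : ℕ} (f : Fin k → Fin k) (W : Finset (Fin k)) (H : Finset (Fin k × Fin k)) :
    W.card * (prs f W H).card ≤ (tgt f W H).card := by
  classical
  rw [← Finset.card_product]
  apply Finset.card_le_card_of_injOn (fun q => ({q.1, q.2.1, q.2.2} : Finset (Fin k)))
  · intro q hq
    rw [Finset.mem_coe, Finset.mem_product] at hq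
    obtain ⟨hW, hP⟩ := hq
    unfold prs at hP
    rw [Finset.mem_filter] at hP
    obtain ⟨_, h1, h2, h3, h4⟩ := hP
    have hx1 : q.1 ≠ q.2.1 := fun h => h1 (h ▸ hW)
    have hx2 : q.1 ≠ q.2.2 := fun h => h2 (h ▸ hW)
    have h12 : q.2.1 ≠ q.2.2 := ne_of_lt h3
    rw [Finset.mem_coe]
    unfold tgt
    rw [Finset.mem_filter, Finset.mem_powersetCard]
    refine ⟨⟨Finset.subset_univ _, ?_⟩, q.1, hW, q.2.1, h1, q.2.2, h2, h12, rfl, h4⟩
    rw [Finset.card_eq_three]
    exact ⟨_, _, _, hx1, hx2, h12, rfl⟩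
  · intro q hq q' hq' he
    rw [Finset.mem_coe, Finset.mem_product] at hq hq'
    obtain ⟨hW, hP⟩ := hq
    obtain ⟨hW', hP'⟩ := hq'
    unfold prs at hP hP'
    rw [Finset.mem_filter] at hP hP'
    obtain ⟨_, h1, h2, h3, h4⟩ := hP
    obtain ⟨_, h1', h2', h3', h4'⟩ := hP'
    obtain ⟨x, y, z⟩ := q
    obtain ⟨x', y', z'⟩ := q'
    simp only at *
    have hx : x = x' := by
      have : x ∈ ({x', y', z'} : Finset (Fin k)) := by rw [← he]; simp
      simp only [Finset.mem_insert, Finset.mem_singleton] at this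
      rcases this with h | h | h
      · exact h
      · exact absurd (h ▸ hW) h1'
      · exact absurd (h ▸ hW) h2'
    have hy : y = y' ∨ y = z' := by
      have : y ∈ ({x', y', z'} : Finset (Fin k)) := by rw [← he]; simp
      simp only [Finset.mem_insert, Finset.mem_singleton] at this
      rcases this with h | h | h
      · exact absurd (by rw [h]; exact hW') h1
      · exact Or.inl h
      · exact Or.inr h
    have hz : z = y' ∨ z = z' := by
      have : z ∈ ({x', y', z'} : Finset (Fin k)) := by rw [← he]; simp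
      simp only [Finset.mem_insert, Finset.mem_singleton] at this
      rcases this with h | h | h
      · exact absurd (by rw [h]; exact hW') h2
      · exact Or.inl h
      · exact Or.inr h
    rcases hy with hy | hy
    · rcases hz with hz | hz
      · rw [hy, hz] at h3
        exact absurd h3 (lt_irrefl _)
      · rw [hx, hy, hz]
    · rcases hz with hz | hz
      · rw [hy, hz] at h3
        exact absurd (h3.trans h3') (lt_irrefl _)
      · rw [hy, hz] at h3
        exact absurd h3 (lt_irrefl _)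

theorem card_tgtD {k : ℕ} (x : Fin k) (Z : Finset (Fin k)) :
    (k - 1 - Z.card).choose 2 ≤ (tgtD x Z).card := by
  classical
  have h1 : (k - 1 - Z.card).choose 2 ≤ (((univ \ Z).erase x).powersetCard 2).card := by
    rw [Finset.card_powersetCard]
    apply Nat.choose_le_choose
    have h2 : k - Z.card ≤ (univ \ Z).card := by
      rw [Finset.card_sdiff_of_subset (Finset.subset_univ Z)]
      simp
    have h3 : (univ \ Z).card - 1 ≤ ((univ \ Z).erase x).card := Finset.pred_card_le_card_erase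
    omega
  refine h1.trans ?_
  apply Finset.card_le_card_of_injOn (fun s => insert x s)
  · intro s hs
    rw [Finset.mem_coe, Finset.mem_powersetCard] at hs
    have hxs : x ∉ s := fun h => (Finset.mem_erase.1 (hs.1 h)).1 rfl
    rw [Finset.mem_coe]
    unfold tgtD
    rw [Finset.mem_filter, Finset.mem_powersetCard]
    refine ⟨⟨Finset.subset_univ _, ?_⟩, Finset.mem_insert_self _ _, ?_⟩
    · rw [Finset.card_insert_of_notMem hxs, hs.2]
    · intro y hy hyx
      rw [Finset.mem_insert] at hy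
      rcases hy with hy | hy
      · exact absurd hy hyx
      · have := (Finset.mem_erase.1 (hs.1 hy)).2
        exact (Finset.mem_sdiff.1 this).2
  · intro s hs s' hs' he
    rw [Finset.mem_coe, Finset.mem_powersetCard] at hs hs'
    have hxs : x ∉ s := fun h => (Finset.mem_erase.1 (hs.1 h)).1 rfl
    have hxs' : x ∉ s' := fun h => (Finset.mem_erase.1 (hs'.1 h)).1 rfl
    have := congrArg (fun t => t.erase x) he
    simp only [Finset.erase_insert hxs, Finset.erase_insert hxs'] at this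
    exact this

/-- the properties of the 3-graph -/
structure Good (k t QA QB t0 : ℕ) (F : Finset (Finset (Fin k))) : Prop where
  card3 : ∀ e ∈ F, e.card = 3
  lin : ∀ e ∈ F, ∀ f ∈ F, e ≠ f → (e ∩ f).card ≤ 1
  hA : ∀ (f : Fin k → Fin k) (W : Finset (Fin k)), QA ≤ (tgt f W univ).card →
    ∃ e ∈ F, e ∈ tgt f W univ
  hB : ∀ (f : Fin k → Fin k) (W : Finset (Fin k)) (H : Finset (Fin k × Fin k)), H.card ≤ t →
    QB ≤ (tgt f W H).card → ∃ e ∈ F, e ∈ tgt f W H
  hD : ∀ (x : Fin k) (Z : Finset (Fin k)), Z.card ≤ t0 → ∃ e ∈ F, e ∈ tgtD x Z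

theorem tgt_mono {k : ℕ} (f : Fin k → Fin k) (W : Finset (Fin k)) (H H' : Finset (Fin k × Fin k))
    (hH : ∀ a b, a ≠ b → ((a, b) ∈ H ↔ (a, b) ∈ H')) : tgt f W H = tgt f W H' := by
  classical
  unfold tgt
  apply Finset.filter_congr
  intro e _
  constructor
  · rintro ⟨x, hx, y, hy, z, hz, hyz, he, h⟩
    refine ⟨x, hx, y, hy, z, hz, hyz, he, ?_⟩
    by_cases hf : f y = f z
    · exact Or.inl hf
    · right
      rw [← hH _ _ hf]
      rcases h with h | h
      · exact absurd h hf
      · exact h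
  · rintro ⟨x, hx, y, hy, z, hz, hyz, he, h⟩
    refine ⟨x, hx, y, hy, z, hz, hyz, he, ?_⟩
    by_cases hf : f y = f z
    · exact Or.inl hf
    · right
      rw [hH _ _ hf]
      rcases h with h | h
      · exact absurd h hf
      · exact h

theorem exists_good (k L E : ℕ) (hk : 0 < k) (hE : 1 ≤ E) (hL : k < 2 ^ L) (hbig : 2 ^ 60 * (E * L) ≤ k) :
    ∃ F : Finset (Finset (Fin k)),
      Good k (2 * E * k) (96 * k * (L * k + k + 2)) (96 * k * (L * k + k + 2 * L * (2 * E * k + 1) + 2))
        (k / 2 ^ 14) F := by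
  classical
  have hL1 : 1 ≤ L := by
    by_contra h
    have : L = 0 := by omega
    subst this
    simp at hL
    omega
  have hEL : 1 ≤ E * L := Nat.one_le_iff_ne_zero.2 (by
    intro h
    rcases Nat.mul_eq_zero.1 h with h | h <;> omega)
  have hk60 : 2 ^ 60 ≤ k := by
    calc 2 ^ 60 = 2 ^ 60 * 1 := by ring
      _ ≤ 2 ^ 60 * (E * L) := Nat.mul_le_mul_left _ hEL
      _ ≤ k := hbig
  have hkL : 2 ^ 60 * L ≤ k := by
    calc 2 ^ 60 * L ≤ 2 ^ 60 * (E * L) := Nat.mul_le_mul_left _ (Nat.le_mul_of_pos_left L (by omega))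
      _ ≤ k := hbig
  set QA := 96 * k * (L * k + k + 2) with hQA
  set QB := 96 * k * (L * k + k + 2 * L * (2 * E * k + 1) + 2) with hQB
  set t0 := k / 2 ^ 14 with ht0
  -- the three families
  set JA : Finset (Finset (Finset (Fin k))) :=
    ((univ : Finset ((Fin k → Fin k) × Finset (Fin k))).image (fun q => tgt q.1 q.2 univ)).filter
      (fun S => QA ≤ S.card) with hJA
  set JB : Finset (Finset (Finset (Fin k))) :=
    ((univ : Finset (((Fin k → Fin k) × Finset (Fin k)) × (Fin (2 * E * k + 1) → Fin k × Fin k))).image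
      (fun q => tgt q.1.1 q.1.2 (univ.image q.2))).filter (fun S => QB ≤ S.card) with hJB
  set JD : Finset (Finset (Finset (Fin k))) :=
    ((univ : Finset (Fin k × Finset (Fin k))).filter (fun q => q.2.card ≤ t0)).image
      (fun q => tgtD q.1 q.2) with hJD
  have hcard1 : Fintype.card ((Fin k → Fin k) × Finset (Fin k)) ≤ 2 ^ (L * k + k) := by
    rw [Fintype.card_prod, Fintype.card_fun, Fintype.card_fin, Fintype.card_finset, Fintype.card_fin,
      pow_add, pow_mul]
    exact Nat.mul_le_mul_right _ (Nat.pow_le_pow_left hL.le k)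
  have hJAc : JA.card ≤ 2 ^ (L * k + k) := by
    refine (Finset.card_filter_le _ _).trans ?_
    refine Finset.card_image_le.trans ?_
    rw [Finset.card_univ]
    exact hcard1
  have hJBc : JB.card ≤ 2 ^ (L * k + k + 2 * L * (2 * E * k + 1)) := by
    refine (Finset.card_filter_le _ _).trans ?_
    refine Finset.card_image_le.trans ?_
    rw [Finset.card_univ, Fintype.card_prod, pow_add]
    refine Nat.mul_le_mul hcard1 ?_
    rw [Fintype.card_fun, Fintype.card_fin, Fintype.card_prod, Fintype.card_fin, pow_mul]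
    apply Nat.pow_le_pow_left
    have : 2 ^ (2 * L) = 2 ^ L * 2 ^ L := by
      rw [← pow_add]
      congr 1
      ring
    rw [this]
    exact Nat.mul_le_mul hL.le hL.le
  have hsA : ∑ S ∈ JA, (1 - 1 / (96 * (k : ℝ))) ^ S.card ≤ 1 / 4 := by
    apply sum_lam k hk (L * k + k) JA hJAc
    intro S hS
    exact (Finset.mem_filter.1 hS).2
  have hsB : ∑ S ∈ JB, (1 - 1 / (96 * (k : ℝ))) ^ S.card ≤ 1 / 4 := by
    apply sum_lam k hk _ JB hJBc
    intro S hS
    exact (Finset.mem_filter.1 hS).2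
  have hsD : ∑ S ∈ JD, (1 - 1 / (96 * (k : ℝ))) ^ S.card ≤ 1 / 4 := by
    have hcD : (JD.card : ℝ) ≤ k * ((2 ^ 11) ^ t0 * (1 + 1 / 2 ^ 11) ^ k) := by
      have h1 : JD.card ≤ k * ((univ : Finset (Finset (Fin k))).filter (fun Z => Z.card ≤ t0)).card := by
        refine Finset.card_image_le.trans ?_
        have h2 : ((univ : Finset (Fin k × Finset (Fin k))).filter (fun q => q.2.card ≤ t0)) ⊆
            (univ : Finset (Fin k)) ×ˢ ((univ : Finset (Finset (Fin k))).filter (fun Z => Z.card ≤ t0)) := by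
          intro q hq
          rw [Finset.mem_filter] at hq
          rw [Finset.mem_product, Finset.mem_filter]
          exact ⟨Finset.mem_univ _, Finset.mem_univ _, hq.2⟩
        refine (Finset.card_le_card h2).trans ?_
        rw [Finset.card_product]
        simp
      have h3 : (JD.card : ℝ) ≤ k * (((univ : Finset (Finset (Fin k))).filter (fun Z => Z.card ≤ t0)).card : ℝ) := by
        exact_mod_cast h1
      refine h3.trans ?_
      apply mul_le_mul_of_nonneg_left _ (by positivity)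
      exact card_small_subsets k t0 11
    have hpow1 : ((1 : ℝ) + 1 / 2 ^ 11) ^ k ≤ 2 ^ (k / 2 ^ 10 + 2) := by
      have h1 : ((1 : ℝ) + 1 / 2 ^ 11) ^ (2 ^ 11) ≤ 4 := by
        have h2 : (1 : ℝ) + 1 / 2 ^ 11 ≤ Real.exp (1 / 2 ^ 11) := by
          have := Real.add_one_le_exp (1 / 2 ^ 11 : ℝ)
          linarith
        have h3 : ((1 : ℝ) + 1 / 2 ^ 11) ^ (2 ^ 11) ≤ Real.exp (1 / 2 ^ 11) ^ (2 ^ 11) :=
          pow_le_pow_left₀ (by positivity) h2 _
        refine h3.trans ?_
        rw [← Real.exp_nat_mul]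
        have h4 : ((2 ^ 11 : ℕ) : ℝ) * (1 / 2 ^ 11) = 1 := by norm_num
        rw [h4]
        have := Real.exp_one_lt_d9
        linarith
      have h5 : k ≤ 2 ^ 11 * (k / 2 ^ 11 + 1) := by
        have := Nat.lt_mul_div_succ k (show 0 < 2 ^ 11 by norm_num)
        omega
      calc ((1 : ℝ) + 1 / 2 ^ 11) ^ k ≤ ((1 : ℝ) + 1 / 2 ^ 11) ^ (2 ^ 11 * (k / 2 ^ 11 + 1)) :=
            pow_le_pow_right₀ (by norm_num) h5
        _ = (((1 : ℝ) + 1 / 2 ^ 11) ^ (2 ^ 11)) ^ (k / 2 ^ 11 + 1) := by rw [pow_mul]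
        _ ≤ 4 ^ (k / 2 ^ 11 + 1) := pow_le_pow_left₀ (by positivity) h1 _
        _ = 2 ^ (2 * (k / 2 ^ 11 + 1)) := by
            rw [pow_mul]
            norm_num
        _ ≤ 2 ^ (k / 2 ^ 10 + 2) := by
            apply pow_le_pow_right₀ (by norm_num)
            omega
    have hpow2 : ((2 : ℝ) ^ 11) ^ t0 = 2 ^ (11 * t0) := by rw [← pow_mul]
    have hkk : (k : ℝ) ≤ 2 ^ L := by exact_mod_cast hL.le
    have hcD2 : (JD.card : ℝ) ≤ 2 ^ (L + 11 * t0 + (k / 2 ^ 10 + 2)) := by
      refine hcD.trans ?_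
      rw [pow_add, pow_add, hpow2, mul_assoc]
      apply mul_le_mul hkk _ (by positivity) (by positivity)
      apply mul_le_mul_of_nonneg_left hpow1 (by positivity)
    have hcD3 : JD.card ≤ 2 ^ (L + 11 * t0 + (k / 2 ^ 10 + 2)) := by exact_mod_cast hcD2
    apply sum_lam k hk _ JD hcD3
    intro S hS
    rw [hJD, Finset.mem_image] at hS
    obtain ⟨q, hq, rfl⟩ := hS
    rw [Finset.mem_filter] at hq
    have h1 := card_tgtD q.1 q.2
    refine le_trans ?_ h1
    have h2 : k - 1 - t0 ≤ k - 1 - q.2.card := by omega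
    refine le_trans ?_ (Nat.choose_le_choose 2 h2)
    -- 96 k (L + 11 t0 + k/1024 + 4) ≤ C(k-1-t0, 2)
    rw [Nat.choose_two_right]
    rw [Nat.le_div_iff_mul_le (by norm_num)]
    have h3 : L + 11 * t0 + (k / 2 ^ 10 + 2) + 2 ≤ k / 500 := by omega
    have h4 : k * 9 / 10 ≤ k - 1 - t0 - 1 := by omega
    have h5 : k * 9 / 10 ≤ k - 1 - t0 := by omega
    have h6 : (k * 9 / 10) * (k * 9 / 10) ≤ (k - 1 - t0) * (k - 1 - t0 - 1) := Nat.mul_le_mul h5 h4
    refine le_trans ?_ h6
    have h7 : 96 * k * (L + 11 * t0 + (k / 2 ^ 10 + 2) + 2) * 2 ≤ 96 * k * (k / 500) * 2 := by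
      apply Nat.mul_le_mul_right
      exact Nat.mul_le_mul_left _ h3
    refine le_trans h7 ?_
    have h8 : 500 * (k / 500) ≤ k := Nat.mul_div_le k 500
    have h9 : 5 * k ≤ 6 * (k * 9 / 10) := by omega
    generalize k * 9 / 10 = b at h9
    generalize k / 500 = a at h8
    have h10 : 4800 * k * (500 * a) ≤ 4800 * k * k := Nat.mul_le_mul_left _ h8
    have h11 : (5 * k) * (5 * k) ≤ (6 * b) * (6 * b) := Nat.mul_le_mul h9 h9
    have h12 : 12500 * (96 * k * a * 2) ≤ 12500 * (b * b) := by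
      calc 12500 * (96 * k * a * 2) = 4800 * k * (500 * a) := by ring
        _ ≤ 4800 * k * k := h10
        _ = 192 * ((5 * k) * (5 * k)) := by ring
        _ ≤ 192 * ((6 * b) * (6 * b)) := Nat.mul_le_mul_left _ h11
        _ = 6912 * (b * b) := by ring
        _ ≤ 12500 * (b * b) := Nat.mul_le_mul_right _ (by norm_num)
    exact Nat.le_of_mul_le_mul_left h12 (by norm_num)
  have hJ : ∑ S ∈ JA ∪ (JB ∪ JD), (1 - 1 / (96 * (k : ℝ))) ^ S.card < 1 := by
    have hnn : ∀ S : Finset (Finset (Fin k)), (0 : ℝ) ≤ (1 - 1 / (96 * (k : ℝ))) ^ S.card := by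
      intro S
      apply pow_nonneg
      have hkR : (1 : ℝ) ≤ k := by exact_mod_cast hk
      have : 1 / (96 * (k : ℝ)) ≤ 1 := by
        rw [div_le_one (by positivity)]
        linarith
      linarith
    have h1 : ∑ S ∈ JA ∪ (JB ∪ JD), (1 - 1 / (96 * (k : ℝ))) ^ S.card ≤
        ∑ S ∈ JA, (1 - 1 / (96 * (k : ℝ))) ^ S.card + ∑ S ∈ JB ∪ JD, (1 - 1 / (96 * (k : ℝ))) ^ S.card := by
      rw [← Finset.sum_union_inter]
      have : 0 ≤ ∑ S ∈ JA ∩ (JB ∪ JD), (1 - 1 / (96 * (k : ℝ))) ^ S.card :=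
        Finset.sum_nonneg (fun S _ => hnn S)
      linarith
    have h2 : ∑ S ∈ JB ∪ JD, (1 - 1 / (96 * (k : ℝ))) ^ S.card ≤
        ∑ S ∈ JB, (1 - 1 / (96 * (k : ℝ))) ^ S.card + ∑ S ∈ JD, (1 - 1 / (96 * (k : ℝ))) ^ S.card := by
      rw [← Finset.sum_union_inter]
      have : 0 ≤ ∑ S ∈ JB ∩ JD, (1 - 1 / (96 * (k : ℝ))) ^ S.card :=
        Finset.sum_nonneg (fun S _ => hnn S)
      linarith
    linarith
  obtain ⟨F, hF3, hFl, hFJ⟩ := exists_linear k hk (JA ∪ (JB ∪ JD)) (by
    intro S hS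
    rw [Finset.mem_union, Finset.mem_union] at hS
    rcases hS with hS | hS | hS
    · rw [hJA, Finset.mem_filter, Finset.mem_image] at hS
      obtain ⟨⟨q, _, rfl⟩, _⟩ := hS
      exact Finset.filter_subset _ _
    · rw [hJB, Finset.mem_filter, Finset.mem_image] at hS
      obtain ⟨⟨q, _, rfl⟩, _⟩ := hS
      exact Finset.filter_subset _ _
    · rw [hJD, Finset.mem_image] at hS
      obtain ⟨q, _, rfl⟩ := hS
      exact Finset.filter_subset _ _) hJ
  refine ⟨F, hF3, hFl, ?_, ?_, ?_⟩
  · intro f W h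
    apply hFJ
    rw [Finset.mem_union]
    left
    rw [hJA, Finset.mem_filter, Finset.mem_image]
    exact ⟨⟨(f, W), Finset.mem_univ _, rfl⟩, h⟩
  · intro f W H hH h
    apply hFJ
    rw [Finset.mem_union, Finset.mem_union]
    right; left
    rw [hJB, Finset.mem_filter, Finset.mem_image]
    refine ⟨?_, h⟩
    -- realise H as the image of a function
    have hk0 : Fin k := ⟨0, hk⟩
    set H' : Finset (Fin k × Fin k) := insert (hk0, hk0) H with hH'
    have hc : H'.card ≤ 2 * E * k + 1 := (Finset.card_insert_le _ _).trans (by omega)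
    have hne : H'.Nonempty := ⟨(hk0, hk0), Finset.mem_insert_self _ _⟩
    obtain ⟨g, hg⟩ : ∃ g : Fin (2 * E * k + 1) → Fin k × Fin k, univ.image g = H' := by
      have e := H'.equivFin
      refine ⟨fun i => if h : i.1 < H'.card then (e.symm ⟨i.1, h⟩).1 else (hk0, hk0), ?_⟩
      ext q
      rw [Finset.mem_image]
      constructor
      · rintro ⟨i, _, rfl⟩
        split_ifs with h
        · exact (e.symm ⟨i.1, h⟩).2
        · exact Finset.mem_insert_self _ _
      · intro hq
        have hi := (e ⟨q, hq⟩).2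
        refine ⟨⟨(e ⟨q, hq⟩).1, lt_of_lt_of_le hi hc⟩, Finset.mem_univ _, ?_⟩
        rw [dif_pos hi]
        simp
    refine ⟨((f, W), g), Finset.mem_univ _, ?_⟩
    show tgt f W (univ.image g) = tgt f W H
    rw [hg]
    apply tgt_mono
    intro a b hab
    rw [hH', Finset.mem_insert]
    constructor
    · rintro (h | h)
      · rw [Prod.mk.injEq] at h
        exact absurd (h.1.trans h.2.symm) hab
      · exact h
    · exact Or.inr
  · intro x Z hZ
    apply hFJ
    rw [Finset.mem_union, Finset.mem_union]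
    right; right
    rw [hJD, Finset.mem_image]
    exact ⟨(x, Z), Finset.mem_filter.2 ⟨Finset.mem_univ _, hZ⟩, rfl⟩

end Pool.Agent.LinRam54
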