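import Mathlib

/-!
Random subsets of a finite set and the isolated vertex lemma.
-/

namespace Pool.Agent.LinRam54

open Finset

variable {α : Type*} [DecidableEq α]

/-- Expectation of `f T` for a `p`-random subset `T` of `A`. -/
noncomputable def wE (p : ℝ) (A : Finset α) (f : Finset α → ℝ) : ℝ :=
  ∑ T ∈ A.powerset, p ^ T.card * (1 - p) ^ (A.card - T.card) * f T

theorem wE_empty (p : ℝ) (f : Finset α → ℝ) : wE p ∅ f = f ∅ := by
  simp [wE]

theorem wE_insert (p : ℝ) (A : Finset α) (a : α) (ha : a ∉ A) (f : Finset α → ℝ) :
    wE p (insert a A) f = (1 - p) * wE p A f + p * wE p A (fun T => f (insert a T)) := by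
  unfold wE
  rw [Finset.sum_powerset_insert ha, Finset.mul_sum, Finset.mul_sum]
  congr 1
  · apply Finset.sum_congr rfl
    intro T hT
    have hTA : T ⊆ A := Finset.mem_powerset.1 hT
    have h1 : T.card ≤ A.card := Finset.card_le_card hTA
    rw [Finset.card_insert_of_notMem ha]
    have : A.card + 1 - T.card = (A.card - T.card) + 1 := by omega
    rw [this, pow_succ]
    ring
  · apply Finset.sum_congr rfl
    intro T hT
    have hTA : T ⊆ A := Finset.mem_powerset.1 hT
    have haT : a ∉ T := fun h => ha (hTA h)
    rw [Finset.card_insert_of_notMem ha, Finset.card_insert_of_notMem haT]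
    have : A.card + 1 - (T.card + 1) = A.card - T.card := by omega
    rw [this, pow_succ]
    ring

theorem wE_congr (p : ℝ) (A : Finset α) (f g : Finset α → ℝ) (h : ∀ T ⊆ A, f T = g T) :
    wE p A f = wE p A g := by
  unfold wE
  apply Finset.sum_congr rfl
  intro T hT
  rw [h T (Finset.mem_powerset.1 hT)]

theorem wE_mono (p : ℝ) (h0 : 0 ≤ p) (h1 : p ≤ 1) (A : Finset α) (f g : Finset α → ℝ)
    (h : ∀ T ⊆ A, f T ≤ g T) : wE p A f ≤ wE p A g := by
  unfold wE
  apply Finset.sum_le_sum
  intro T hT
  have h2 : 0 ≤ 1 - p := by linarith
  exact mul_le_mul_of_nonneg_left (h T (Finset.mem_powerset.1 hT)) (by positivity)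

theorem wE_mul (p : ℝ) (A : Finset α) (c : ℝ) (f : Finset α → ℝ) :
    wE p A (fun T => c * f T) = c * wE p A f := by
  unfold wE
  rw [Finset.mul_sum]
  apply Finset.sum_congr rfl
  intro T _
  ring

theorem wE_add (p : ℝ) (A : Finset α) (f g : Finset α → ℝ) :
    wE p A (fun T => f T + g T) = wE p A f + wE p A g := by
  unfold wE
  rw [← Finset.sum_add_distrib]
  apply Finset.sum_congr rfl
  intro T _
  ring

theorem wE_sum {ι : Type*} (p : ℝ) (A : Finset α) (J : Finset ι) (f : ι → Finset α → ℝ) :
    wE p A (fun T => ∑ j ∈ J, f j T) = ∑ j ∈ J, wE p A (f j) := by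
  classical
  induction J using Finset.induction_on with
  | empty => simp [wE]
  | insert a s ha ih =>
    rw [Finset.sum_insert ha, ← ih, ← wE_add]
    apply wE_congr
    intro T _
    rw [Finset.sum_insert ha]

theorem wE_pow (p u : ℝ) (A : Finset α) :
    wE p A (fun T => u ^ T.card) = (p * u + (1 - p)) ^ A.card := by
  induction A using Finset.induction_on with
  | empty => simp [wE_empty]
  | insert a s ha ih =>
    rw [wE_insert p s a ha, ih]
    have : wE p s (fun T => u ^ (insert a T).card) = u * wE p s (fun T => u ^ T.card) := by
      rw [← wE_mul]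
      apply wE_congr
      intro T hT
      have : a ∉ T := fun h => ha (hT h)
      rw [Finset.card_insert_of_notMem this, pow_succ]
      ring
    rw [this, ih, Finset.card_insert_of_notMem ha, pow_succ]
    ring

theorem wE_one (p : ℝ) (A : Finset α) : wE p A (fun _ => 1) = 1 := by
  have h := wE_pow p 1 A
  simp at h
  exact h

theorem wE_union (p : ℝ) (A B : Finset α) (hd : Disjoint A B) (f : Finset α → ℝ) :
    wE p (A ∪ B) f = wE p A (fun T₁ => wE p B (fun T₂ => f (T₁ ∪ T₂))) := by
  induction A using Finset.induction_on generalizing f with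
  | empty =>
    rw [wE_empty]
    simp
  | insert a s ha ih =>
    have hd' : Disjoint s B := Finset.disjoint_of_subset_left (Finset.subset_insert a s) hd
    have haB : a ∉ B := by
      intro h
      exact (Finset.disjoint_left.1 hd) (Finset.mem_insert_self a s) h
    have hau : a ∉ s ∪ B := by
      simp [ha, haB]
    rw [Finset.insert_union, wE_insert p (s ∪ B) a hau, wE_insert p s a ha, ih hd', ih hd']
    congr 2
    apply wE_congr
    intro T _
    apply wE_congr
    intro T' _
    rw [Finset.insert_union]

/-- `T` has no isolated vertex inside `S`. -/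
def NoIso (r : α → α → Prop) (S T : Finset α) : Prop :=
  ∀ s ∈ S, s ∈ T → ∃ t ∈ T, r s t

open Classical in
theorem iso_bound (r : α → α → Prop) (hs : ∀ x y, r x y → r y x) (hirr : ∀ x, ¬ r x x)
    (D : ℕ) (p : ℝ) (hp0 : 0 < p) (hp1 : p ≤ 1 / 16) (hpD : p * D ≤ 1 / 16) :
    ∀ (n : ℕ) (A : Finset α), A.card = n → (∀ x ∈ A, (A.filter (r x)).card ≤ D) →
      ∀ S ⊆ A, wE p A (fun T => if NoIso r S T then 1 else 0) ≤ (1 - p / 2) ^ S.card := by
  have hl0 : 0 < 1 - p / 2 := by linarith
  have hl1 : 1 - p / 2 ≤ 1 := by linarith
  -- numeric facts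
  have hlD : (31 / 32 : ℝ) ≤ (1 - p / 2) ^ D := by
    have h := one_add_mul_le_pow (a := -(p / 2)) (by linarith) D
    have h2 : (1 + -(p / 2)) ^ D = (1 - p / 2) ^ D := by ring
    rw [h2] at h
    have h3 : (D : ℝ) * -(p / 2) = -(p * D) / 2 := by ring
    rw [h3] at h
    linarith
  have hlDpos : 0 < (1 - p / 2) ^ D := pow_pos hl0 D
  set u : ℝ := 1 / (1 - p / 2) ^ D with hu
  have hu1 : 1 ≤ u := by
    rw [hu, le_div_iff₀ hlDpos, one_mul]
    exact pow_le_one₀ hl0.le hl1
  have hu2 : u ≤ 32 / 31 := by
    rw [hu, div_le_iff₀ hlDpos]
    nlinarith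
  have hpD' : (15 / 16 : ℝ) ≤ (1 - p) ^ D := by
    have h := one_add_mul_le_pow (a := -p) (by linarith) D
    have h2 : (1 + -p) ^ D = (1 - p) ^ D := by ring
    rw [h2] at h
    have h3 : (D : ℝ) * -p = -(p * D) := by ring
    rw [h3] at h
    linarith
  have hup : (p * u + (1 - p)) ^ D ≤ 496 / 495 := by
    have h := one_add_mul_le_pow (a := -(p * (u - 1))) (by nlinarith) D
    have h3 : (495 / 496 : ℝ) ≤ (1 - p * (u - 1)) ^ D := by
      have h2 : (1 + -(p * (u - 1))) ^ D = (1 - p * (u - 1)) ^ D := by ring
      rw [h2] at h
      have h4 : (D : ℝ) * -(p * (u - 1)) = -((p * D) * (u - 1)) := by ring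
      rw [h4] at h
      have h5 : (p * D) * (u - 1) ≤ 1 / 16 * (1 / 31) := by
        apply mul_le_mul hpD (by linarith) (by linarith) (by norm_num)
      linarith
    have h6 : (p * u + (1 - p)) ^ D * (1 - p * (u - 1)) ^ D ≤ 1 := by
      rw [← mul_pow]
      apply pow_le_one₀
      · apply mul_nonneg
        · nlinarith
        · nlinarith
      · have : (p * u + (1 - p)) * (1 - p * (u - 1)) = 1 - (p * (u - 1)) ^ 2 := by ring
        rw [this]
        nlinarith [sq_nonneg (p * (u - 1))]
    have h7 : 0 ≤ (p * u + (1 - p)) ^ D := by
      apply pow_nonneg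
      nlinarith
    nlinarith
  intro n
  induction n using Nat.strong_induction_on with
  | _ n ih =>
  intro A hA hdeg S hSA
  rcases S.eq_empty_or_nonempty with hSe | ⟨s, hsS⟩
  · subst hSe
    have h1 : wE p A (fun T => if NoIso r ∅ T then (1 : ℝ) else 0) = wE p A (fun _ => 1) := by
      apply wE_congr
      intro T _
      rw [if_pos]
      intro s hs
      simp at hs
    rw [h1, wE_one]
    simp
  · have hsA : s ∈ A := hSA hsS
    have hAs : A = insert s (A.erase s) := (Finset.insert_erase hsA).symm
    have hns : s ∉ A.erase s := Finset.notMem_erase s A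
    have hcard : (A.erase s).card < n := by
      rw [Finset.card_erase_of_mem hsA, hA]
      have : 0 < A.card := Finset.card_pos.2 ⟨s, hsA⟩
      omega
    have hdeg' : ∀ B ⊆ A, ∀ x ∈ B, (B.filter (r x)).card ≤ D := by
      intro B hB x hx
      exact le_trans (Finset.card_le_card (Finset.filter_subset_filter _ hB)) (hdeg x (hB hx))
    have hSpos : 0 < S.card := Finset.card_pos.2 ⟨s, hsS⟩
    set l : ℝ := 1 - p / 2 with hl
    -- first case
    have hfirst : wE p (A.erase s) (fun T => if NoIso r S T then (1 : ℝ) else 0) ≤
        l ^ (S.card - 1) := by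
      have h1 := ih (A.erase s).card hcard (A.erase s) rfl
        (hdeg' _ (Finset.erase_subset s A)) (S.erase s) (Finset.erase_subset_erase s hSA)
      rw [Finset.card_erase_of_mem hsS] at h1
      refine le_trans ?_ h1
      apply wE_mono p hp0.le (by linarith)
      intro T _
      by_cases hb : NoIso r S T
      · rw [if_pos hb, if_pos]
        intro x hx hxT
        exact hb x (Finset.mem_of_mem_erase hx) hxT
      · rw [if_neg hb]
        split_ifs <;> norm_num
    -- second case
    set N : Finset α := (A.erase s).filter (r s) with hN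
    set A' : Finset α := (A.erase s).filter (fun x => ¬ r s x) with hA'
    have hNA : A.erase s = N ∪ A' := (Finset.filter_union_filter_not_eq (r s) (A.erase s)).symm
    have hdisj : Disjoint N A' := Finset.disjoint_filter_filter_not _ _ _
    have hNcard : N.card ≤ D := by
      refine le_trans (Finset.card_le_card ?_) (hdeg s hsA)
      exact Finset.filter_subset_filter _ (Finset.erase_subset s A)
    have hA'sub : A' ⊆ A.erase s := Finset.filter_subset _ _
    have hA'card : A'.card < n := lt_of_le_of_lt (Finset.card_le_card hA'sub) hcard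
    have hinner : ∀ T₁ ⊆ N, wE p A' (fun T₂ => if NoIso r S (insert s (T₁ ∪ T₂)) then (1 : ℝ) else 0) ≤
        (l ^ S.card / l * u) * (u ^ T₁.card - (if T₁ = ∅ then 1 else 0)) := by
      intro T₁ hT₁
      by_cases hTe : T₁ = ∅
      · subst hTe
        simp only [Finset.card_empty, pow_zero, if_true, sub_self, mul_zero]
        have h0 : wE p A' (fun T₂ => if NoIso r S (insert s (∅ ∪ T₂)) then (1 : ℝ) else 0) =
            wE p A' (fun _ => 0) := by
          apply wE_congr
          intro T₂ hT₂
          rw [if_neg]
          intro hb
          obtain ⟨t, ht, hrt⟩ := hb s hsS (Finset.mem_insert_self _ _)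
          rw [Finset.mem_insert, Finset.empty_union] at ht
          rcases ht with ht | ht
          · rw [ht] at hrt
            exact hirr s hrt
          · have := hT₂ ht
            rw [hA', Finset.mem_filter] at this
            exact this.2 hrt
        rw [h0]
        simp [wE]
      · rw [if_neg hTe, sub_zero]
        set S' : Finset α := (S ∩ A').filter (fun x => ∀ t ∈ T₁, ¬ r x t) with hS'
        have hS'A' : S' ⊆ A' := by
          intro x hx
          rw [hS', Finset.mem_filter, Finset.mem_inter] at hx
          exact hx.1.2
        have h1 := ih A'.card hA'card A' rfl (hdeg' _ (hA'sub.trans (Finset.erase_subset s A))) S' hS'A'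
        have h2 : wE p A' (fun T₂ => if NoIso r S (insert s (T₁ ∪ T₂)) then (1 : ℝ) else 0) ≤
            wE p A' (fun T₂ => if NoIso r S' T₂ then (1 : ℝ) else 0) := by
          apply wE_mono p hp0.le (by linarith)
          intro T₂ hT₂
          by_cases hb : NoIso r S (insert s (T₁ ∪ T₂))
          · rw [if_pos hb, if_pos]
            intro x hx hxT
            rw [hS', Finset.mem_filter, Finset.mem_inter] at hx
            obtain ⟨t, ht, hrt⟩ := hb x hx.1.1 (by simp [hxT])
            rw [Finset.mem_insert, Finset.mem_union] at ht
            rcases ht with ht | ht | ht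
            · exfalso
              rw [ht] at hrt
              have := hx.1.2
              rw [hA', Finset.mem_filter] at this
              exact this.2 (hs _ _ hrt)
            · exact absurd hrt (hx.2 t ht)
            · exact ⟨t, ht, hrt⟩
          · rw [if_neg hb]
            split_ifs <;> norm_num
        -- cardinality
        have h3 : S.card ≤ S'.card + (1 + D + D * T₁.card) := by
          have hsub : S ⊆ S' ∪ ({s} ∪ N ∪ T₁.biUnion (fun t => A.filter (r t))) := by
            intro x hx
            by_cases hxs : x = s
            · simp [hxs]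
            · by_cases hxN : r s x
              · have : x ∈ N := by
                  rw [hN, Finset.mem_filter, Finset.mem_erase]
                  exact ⟨⟨hxs, hSA hx⟩, hxN⟩
                simp [this]
              · have hxA' : x ∈ A' := by
                  rw [hA', Finset.mem_filter, Finset.mem_erase]
                  exact ⟨⟨hxs, hSA hx⟩, hxN⟩
                by_cases hxT : ∀ t ∈ T₁, ¬ r x t
                · have : x ∈ S' := by
                    rw [hS', Finset.mem_filter, Finset.mem_inter]
                    exact ⟨⟨hx, hxA'⟩, hxT⟩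
                  simp [this]
                · push_neg at hxT
                  obtain ⟨t, ht, hrt⟩ := hxT
                  have : x ∈ T₁.biUnion (fun t => A.filter (r t)) := by
                    rw [Finset.mem_biUnion]
                    refine ⟨t, ht, ?_⟩
                    rw [Finset.mem_filter]
                    exact ⟨hSA hx, hs _ _ hrt⟩
                  simp only [Finset.mem_union]
                  right; right; exact this
          have hb : (T₁.biUnion (fun t => A.filter (r t))).card ≤ D * T₁.card := by
            refine le_trans Finset.card_biUnion_le ?_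
            have : ∑ t ∈ T₁, (A.filter (r t)).card ≤ ∑ t ∈ T₁, D := by
              apply Finset.sum_le_sum
              intro t ht
              apply hdeg t
              have := hT₁ ht
              rw [hN, Finset.mem_filter, Finset.mem_erase] at this
              exact this.1.2
            rw [Finset.sum_const, smul_eq_mul] at this
            rw [mul_comm]
            exact this
          calc S.card ≤ (S' ∪ ({s} ∪ N ∪ T₁.biUnion (fun t => A.filter (r t)))).card :=
                Finset.card_le_card hsub
            _ ≤ S'.card + ({s} ∪ N ∪ T₁.biUnion (fun t => A.filter (r t))).card :=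
                Finset.card_union_le _ _
            _ ≤ S'.card + (({s} ∪ N).card + (T₁.biUnion (fun t => A.filter (r t))).card) := by
                gcongr
                exact Finset.card_union_le _ _
            _ ≤ S'.card + ((1 + D) + D * T₁.card) := by
                gcongr
                refine le_trans (Finset.card_union_le _ _) ?_
                simp
                exact hNcard
            _ = S'.card + (1 + D + D * T₁.card) := rfl
        have h4 : l ^ S'.card * l ^ (1 + D + D * T₁.card) ≤ l ^ S.card := by
          rw [← pow_add]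
          exact pow_le_pow_of_le_one hl0.le hl1 h3
        have h5 : l ^ S'.card ≤ (l ^ S.card / l * u) * u ^ T₁.card := by
          have hpos : 0 < l ^ (1 + D + D * T₁.card) := pow_pos hl0 _
          have h6 : (l ^ S.card / l * u) * u ^ T₁.card = l ^ S.card / l ^ (1 + D + D * T₁.card) := by
            rw [hu]
            rw [pow_add, pow_add, pow_one, pow_mul, div_pow, one_pow]
            field_simp
          rw [h6, le_div_iff₀ hpos]
          exact h4
        exact (h2.trans h1).trans h5
    have hsecond : wE p (A.erase s) (fun T => if NoIso r S (insert s T) then (1 : ℝ) else 0) ≤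
        (l ^ S.card / l * u) * ((p * u + (1 - p)) ^ N.card - (1 - p) ^ N.card) := by
      rw [hNA, wE_union p N A' hdisj]
      have h1 : wE p N (fun T₁ => wE p A' (fun T₂ => if NoIso r S (insert s (T₁ ∪ T₂)) then (1 : ℝ) else 0))
          ≤ wE p N (fun T₁ => (l ^ S.card / l * u) * (u ^ T₁.card - (if T₁ = ∅ then 1 else 0))) := by
        apply wE_mono p hp0.le (by linarith)
        intro T₁ hT₁
        exact hinner T₁ hT₁
      refine h1.trans (le_of_eq ?_)
      rw [wE_mul]
      congr 1
      have h2 : wE p N (fun T₁ => u ^ T₁.card - (if T₁ = ∅ then (1 : ℝ) else 0)) =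
          wE p N (fun T₁ => u ^ T₁.card) + wE p N (fun T₁ => (-1) * (if T₁ = ∅ then (1 : ℝ) else 0)) := by
        rw [← wE_add]
        apply wE_congr
        intro T _
        ring
      rw [h2, wE_pow, wE_mul]
      have h3 : wE p N (fun T₁ => if T₁ = ∅ then (1 : ℝ) else 0) = (1 - p) ^ N.card := by
        unfold wE
        rw [Finset.sum_eq_single ∅]
        · simp
        · intro T _ hT
          simp [hT]
        · intro h
          simp at h
      rw [h3]
      ring
    -- combine
    have hNbound : (p * u + (1 - p)) ^ N.card - (1 - p) ^ N.card ≤ 496 / 495 - 15 / 16 := by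
      have h1 : (p * u + (1 - p)) ^ N.card ≤ (p * u + (1 - p)) ^ D := by
        apply pow_le_pow_right₀ _ hNcard
        nlinarith
      have h2 : (1 - p) ^ D ≤ (1 - p) ^ N.card :=
        pow_le_pow_of_le_one (by linarith) (by linarith) hNcard
      linarith
    have hK : 0 < l ^ S.card / l := by positivity
    have hfirst' : l ^ (S.card - 1) = l ^ S.card / l := by
      have : S.card = (S.card - 1) + 1 := by omega
      rw [eq_div_iff hl0.ne']
      conv_rhs => rw [this, pow_succ]
    have hmain : wE p A (fun T => if NoIso r S T then (1 : ℝ) else 0) ≤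
        (1 - p) * (l ^ S.card / l) + p * ((l ^ S.card / l * u) * (496 / 495 - 15 / 16)) := by
      conv_lhs => rw [hAs]
      rw [wE_insert p (A.erase s) s hns]
      rw [hfirst'] at hfirst
      have h1 : (1 - p) * wE p (A.erase s) (fun T => if NoIso r S T then (1 : ℝ) else 0) ≤
          (1 - p) * (l ^ S.card / l) := mul_le_mul_of_nonneg_left hfirst (by linarith)
      have h2 : p * wE p (A.erase s) (fun T => if NoIso r S (insert s T) then (1 : ℝ) else 0) ≤
          p * ((l ^ S.card / l * u) * (496 / 495 - 15 / 16)) := by
        apply mul_le_mul_of_nonneg_left _ hp0.le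
        refine hsecond.trans ?_
        apply mul_le_mul_of_nonneg_left hNbound
        have : 0 ≤ u := by linarith
        positivity
      linarith
    refine hmain.trans ?_
    have hfin : (1 - p) + p * (u * (496 / 495 - 15 / 16)) ≤ l := by
      rw [hl]
      nlinarith
    have : (1 - p) * (l ^ S.card / l) + p * ((l ^ S.card / l * u) * (496 / 495 - 15 / 16)) =
        (l ^ S.card / l) * ((1 - p) + p * (u * (496 / 495 - 15 / 16))) := by ring
    rw [this]
    calc (l ^ S.card / l) * ((1 - p) + p * (u * (496 / 495 - 15 / 16)))
        ≤ (l ^ S.card / l) * l := mul_le_mul_of_nonneg_left hfin hK.le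
      _ = l ^ S.card := by field_simp

end Pool.Agent.LinRam54
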